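import Mathlib

/-! Coincidences of the values of linear forms at the points of a square. -/

set_option autoImplicit false

namespace Pool.Agent.TH465.SX
open Finset

/-- the number of the coincidences of the values of `f` and `g` -/
def co {α : Type} (Z : Finset α) (f g : α → ℤ) : ℕ := ((Z ×ˢ Z).filter (fun x => f x.1 = g x.2)).card

lemma co_eq {α : Type} (Z : Finset α) (f g : α → ℤ) (T : Finset ℤ) (hT : ∀ z ∈ Z, f z ∈ T) :
    co Z f g = ∑ t ∈ T, (Z.filter (fun z => f z = t)).card * (Z.filter (fun z => g z = t)).card := by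
  unfold co
  rw [card_eq_sum_card_fiberwise (f := fun x : α × α => f x.1) (t := T)]
  · apply sum_congr rfl
    intro t _
    rw [← card_product]
    congr 1
    ext ⟨z, w⟩
    simp only [mem_filter, mem_product]
    constructor
    · rintro ⟨⟨⟨h1, h2⟩, h3⟩, h4⟩
      exact ⟨⟨h1, h4⟩, h2, by rw [← h3, h4]⟩
    · rintro ⟨⟨h1, h4⟩, h2, h5⟩
      exact ⟨⟨⟨h1, h2⟩, by rw [h4, h5]⟩, h4⟩
  · intro x hx
    rw [mem_coe, mem_filter, mem_product] at hx
    exact hT _ hx.1.1

lemma co_le {α : Type} (Z : Finset α) (f g : α → ℤ) : 2 * co Z f g ≤ co Z f f + co Z g g := by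
  classical
  have h1 : ∀ z ∈ Z, f z ∈ Z.image f ∪ Z.image g := fun z hz => mem_union_left _ (mem_image_of_mem f hz)
  have h2 : ∀ z ∈ Z, g z ∈ Z.image f ∪ Z.image g := fun z hz => mem_union_right _ (mem_image_of_mem g hz)
  rw [co_eq Z f g _ h1, co_eq Z f f _ h1, co_eq Z g g _ h2, mul_sum, ← sum_add_distrib]
  apply sum_le_sum
  intro t _
  generalize (Z.filter (fun z => f z = t)).card = A
  generalize (Z.filter (fun z => g z = t)).card = B
  have := two_mul_le_add_sq A B
  nlinarith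

lemma sq_le {α : Type} (Z : Finset α) (f : α → ℤ) (V : Finset ℤ) :
    (Z.filter (fun z => f z ∈ V)).card ^ 2 ≤ V.card * co Z f f := by
  classical
  have h1 : (Z.filter (fun z => f z ∈ V)).card = ∑ v ∈ V, (Z.filter (fun z => f z = v)).card := by
    rw [card_eq_sum_card_fiberwise (f := f) (t := V)]
    · apply sum_congr rfl
      intro v hv
      congr 1
      ext z
      simp only [mem_filter]
      constructor
      · rintro ⟨⟨a, _⟩, c⟩; exact ⟨a, c⟩
      · rintro ⟨a, c⟩; exact ⟨⟨a, by rw [c]; exact hv⟩, c⟩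
    · intro z hz
      rw [mem_coe, mem_filter] at hz
      exact hz.2
  have h2 : ∑ v ∈ V, (Z.filter (fun z => f z = v)).card ^ 2 ≤ co Z f f := by
    rw [co_eq Z f f (Z.image f ∪ V) (fun z hz => mem_union_left _ (mem_image_of_mem f hz))]
    refine (sum_le_sum_of_subset (subset_union_right (s₁ := Z.image f))).trans' ?_
    apply sum_le_sum
    intro v _
    rw [sq]
  rw [h1]
  refine (sq_sum_le_card_mul_sum_sq (s := V) (f := fun v => (Z.filter (fun z => f z = v)).card)).trans ?_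
  exact Nat.mul_le_mul_left _ h2

lemma co_swap {P : Finset ℤ} (f g h k : ℤ → ℤ → ℤ)
    (H : ∀ x y z w, f x y = g z w ↔ h x z = k w y) :
    co (P ×ˢ P) (fun z => f z.1 z.2) (fun z => g z.1 z.2) = co (P ×ˢ P) (fun z => h z.1 z.2) (fun z => k z.1 z.2) := by
  unfold co
  apply card_nbij' (fun x => ((x.1.1, x.2.1), (x.2.2, x.1.2))) (fun x => ((x.1.1, x.2.2), (x.1.2, x.2.1)))
  · rintro ⟨⟨x, y⟩, z, w⟩ hx
    simp only [coe_filter, mem_product, Set.mem_ofPred_eq] at hx ⊢
    exact ⟨⟨⟨hx.1.1.1, hx.1.2.1⟩, hx.1.2.2, hx.1.1.2⟩, (H _ _ _ _).1 hx.2⟩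
  · rintro ⟨⟨x, y⟩, z, w⟩ hx
    simp only [coe_filter, mem_product, Set.mem_ofPred_eq] at hx ⊢
    exact ⟨⟨⟨hx.1.1.1, hx.1.2.2⟩, hx.1.1.2, hx.1.2.1⟩, (H _ _ _ _).2 hx.2⟩
  · rintro ⟨⟨x, y⟩, z, w⟩ _
    rfl
  · rintro ⟨⟨x, y⟩, z, w⟩ _
    rfl

/-- the number of the coincidences for an arbitrary form is at most that for the sum -/
theorem co_form (P : Finset ℤ) {a b : ℤ} (ha : a ≠ 0) (hb : b ≠ 0) :
    co (P ×ˢ P) (fun z => a * z.1 + b * z.2) (fun z => a * z.1 + b * z.2) ≤
      co (P ×ˢ P) (fun z => z.1 + z.2) (fun z => z.1 + z.2) := by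
  have h1 : co (P ×ˢ P) (fun z => a * z.1 + b * z.2) (fun z => a * z.1 + b * z.2) =
      co (P ×ˢ P) (fun z => a * (z.1 - z.2)) (fun z => b * (z.1 - z.2)) :=
    co_swap (fun x y => a * x + b * y) (fun x y => a * x + b * y) (fun x y => a * (x - y)) (fun x y => b * (x - y))
      (fun x y z w => by constructor <;> intro h <;> linarith)
  have h2 : co (P ×ˢ P) (fun z => z.1 - z.2) (fun z => z.1 - z.2) =
      co (P ×ˢ P) (fun z => z.1 + z.2) (fun z => z.1 + z.2) := by
    have := co_swap (P := P) (fun x y => x + y) (fun x y => x + y) (fun x y => x - y) (fun x y => x - y)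
      (fun x y z w => by constructor <;> intro h <;> linarith)
    exact this.symm
  have h3 : ∀ c : ℤ, c ≠ 0 → co (P ×ˢ P) (fun z => c * (z.1 - z.2)) (fun z => c * (z.1 - z.2)) =
      co (P ×ˢ P) (fun z => z.1 - z.2) (fun z => z.1 - z.2) := by
    intro c hc
    unfold co
    congr 1
    apply filter_congr
    intro x _
    exact mul_right_inj' hc
  have h4 := co_le (P ×ˢ P) (fun z => a * (z.1 - z.2)) (fun z => b * (z.1 - z.2))
  rw [h3 a ha, h3 b hb, h2] at h4
  rw [h1]
  omega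

end Pool.Agent.TH465.SX
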