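import Pool.Agent.TH465.SX.UB
import Pool.Agent.TH465.EX.B
import Pool.Agent.TH204.CP.Pairs3

/-! Excursions along linear forms in two primes from arbitrary sets. -/

set_option autoImplicit false

namespace Pool.Agent.TH465.SX
open Finset Filter Topology
open Pool.Agent.H499R2.ND (Tn Td Bdd Bdd_inv AK AK_mod AK_of_bound Dn Inv HD)
open Pool.Agent.TH465.EX (AZ AZ_nat AZ_congr Ex BB exc_small)
open Pool.Agent.TH204.CP (Fs)
open Pool.Agent.W41.FU (bal)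

/-- the value of the form -/
def lf (a b c : ℤ) (z : ℤ × ℤ) : ℤ := a * z.1 + b * z.2 + c

lemma mem_PN {N : ℕ} {p : ℤ} : p ∈ PN N ↔ (1 ≤ p ∧ p ≤ N) ∧ p.toNat.Prime := by
  unfold PN; rw [mem_filter, mem_Icc]

lemma lf_le {N : ℕ} {a b c : ℤ} (hc : |c| ≤ N) {z : ℤ × ℤ} (h1 : z.1 ∈ PN N) (h2 : z.2 ∈ PN N) :
    lf a b c z ≤ ((a.natAbs + b.natAbs + 1) * N : ℕ) := by
  rw [mem_PN] at h1 h2
  unfold lf
  push_cast
  have e1 : a * z.1 ≤ |a| * N := by
    calc a * z.1 ≤ |a| * z.1 := mul_le_mul_of_nonneg_right (le_abs_self a) (by omega)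
      _ ≤ |a| * N := mul_le_mul_of_nonneg_left h1.1.2 (abs_nonneg a)
  have e2 : b * z.2 ≤ |b| * N := by
    calc b * z.2 ≤ |b| * z.2 := mul_le_mul_of_nonneg_right (le_abs_self b) (by omega)
      _ ≤ |b| * N := mul_le_mul_of_nonneg_left h2.1.2 (abs_nonneg b)
  have e3 := le_abs_self c
  nlinarith

open Classical in
/-- few pairs of primes with an exceptional value -/
theorem exc_pairs {β : ℝ} (hβ : Dn Bdd β) {lam : ℝ} (hl : 1 ≤ lam) {a b : ℤ} (ha : a ≠ 0) (hb : b ≠ 0) {ε : ℝ} (hε : 0 < ε) :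
    ∃ K0 : ℕ, ∀ K : ℕ, K0 ≤ K → ∀ᶠ N : ℕ in atTop, ∀ c : ℤ, |c| ≤ N →
      (((PN N ×ˢ PN N).filter (fun z => 0 < lf a b c z ∧ BB K lam (lf a b c z).toNat)).card : ℝ) * Real.log N ^ 2 ≤ ε * N ^ 2 := by
  obtain ⟨C, hC0, hC⟩ := UB ha hb
  set W : ℕ := a.natAbs + b.natAbs + 1 with hW
  have hW0 : (0 : ℝ) < W := by rw [hW]; positivity
  set ε1 : ℝ := ε ^ 2 / ((C + 1) * W) with hε1
  have hε10 : 0 < ε1 := by positivity
  obtain ⟨K0, hK0⟩ := exc_small hβ hl hε10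
  refine ⟨K0, fun K hK => ?_⟩
  obtain ⟨N0, hN0⟩ := hK0 K hK
  filter_upwards [hC, eventually_ge_atTop (N0 + 1)] with N hN hNN c hc
  have hNr : (0 : ℝ) < N := by exact_mod_cast (by omega : 0 < N)
  set V : Finset ℤ := ((Icc 1 (W * N)).filter (BB K lam)).image (fun n : ℕ => (n : ℤ) - c) with hV
  have hVc : (V.card : ℝ) ≤ ε1 * (W * N) := by
    have h2 : (V.card : ℝ) ≤ ((Icc 1 (W * N)).filter (BB K lam)).card := by exact_mod_cast card_image_le
    refine h2.trans ?_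
    rw [← Pool.Agent.H499R2.ND.cnt_eq]
    have h3 := hN0 (W * N) (by
      have : N ≤ W * N := Nat.le_mul_of_pos_left N (by omega)
      omega)
    push_cast at h3
    exact h3
  set M := ((PN N ×ˢ PN N).filter (fun z => 0 < lf a b c z ∧ BB K lam (lf a b c z).toNat)) with hM
  have hsub : M ⊆ (PN N ×ˢ PN N).filter (fun z => a * z.1 + b * z.2 ∈ V) := by
    intro z hz
    rw [hM, mem_filter, mem_product] at hz
    obtain ⟨⟨h1, h2⟩, h3, h4⟩ := hz
    rw [mem_filter, mem_product]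
    refine ⟨⟨h1, h2⟩, ?_⟩
    rw [hV, mem_image]
    have h5 := lf_le (a := a) (b := b) hc h1 h2
    rw [← hW] at h5
    refine ⟨(lf a b c z).toNat, ?_, ?_⟩
    · rw [mem_filter, mem_Icc]
      exact ⟨⟨by omega, by omega⟩, h4⟩
    · have h6 : ((lf a b c z).toNat : ℤ) = lf a b c z := by omega
      simp only [h6]
      unfold lf; ring
  have h1 := hN V
  have hMc : (M.card : ℝ) ≤ (((PN N ×ˢ PN N).filter (fun z => a * z.1 + b * z.2 ∈ V)).card : ℝ) := by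
    exact_mod_cast card_le_card hsub
  have h2 : ((M.card : ℝ) * Real.log N ^ 2) ^ 2 ≤ (ε * N ^ 2) ^ 2 := by
    calc ((M.card : ℝ) * Real.log N ^ 2) ^ 2 = (M.card : ℝ) ^ 2 * Real.log N ^ 4 := by ring
      _ ≤ (((PN N ×ˢ PN N).filter (fun z => a * z.1 + b * z.2 ∈ V)).card : ℝ) ^ 2 * Real.log N ^ 4 :=
          mul_le_mul_of_nonneg_right (pow_le_pow_left₀ (Nat.cast_nonneg _) hMc 2) (by positivity)
      _ ≤ C * V.card * N ^ 3 := h1
      _ ≤ (C + 1) * (ε1 * (W * N)) * N ^ 3 := by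
          apply mul_le_mul_of_nonneg_right _ (by positivity)
          exact mul_le_mul (by linarith) hVc (Nat.cast_nonneg _) (by linarith)
      _ = (ε * N ^ 2) ^ 2 := by
          rw [hε1]
          field_simp
  exact abs_le_of_sq_le_sq' h2 (by positivity) |>.2

lemma fs_val (S : Set ℤ) (δ : ℝ) (m : ℤ) [Decidable (m ∈ S)] :
    Fs 1 (bal 1 S δ) m = if 0 < m then ((if m ∈ S then 1 else 0) - δ) else 0 := by
  unfold Fs bal Pool.Agent.W41.ind
  simp only [one_mul]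
  by_cases h : 0 < m
  · rw [if_pos (by omega), if_pos h]
  · rw [if_neg (by omega), if_neg h]

open Classical in
lemma count_eq (Z : Finset (ℤ × ℤ)) (S : Set ℤ) (δ : ℝ) (G : ℤ → Prop) (m : ℤ × ℤ → ℤ) :
    ∑ z ∈ Z, (if G (m z) then Fs 1 (bal 1 S δ) (m z) else 0) =
      ((Z.filter (fun z => 0 < m z ∧ m z ∈ S ∧ G (m z))).card : ℝ) - δ * ((Z.filter (fun z => 0 < m z ∧ G (m z))).card : ℝ) := by
  rw [card_filter, card_filter]
  push_cast
  rw [mul_sum, ← sum_sub_distrib]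
  apply sum_congr rfl
  intro z _
  rw [fs_val]
  by_cases h1 : 0 < m z <;> by_cases h2 : m z ∈ S <;> by_cases h3 : G (m z) <;> simp [h1, h2, h3]

open Classical in
/-- invariant sets and residue classes along linear forms in two primes -/
theorem inv_classes {a b : ℤ} (ha : a ≠ 0) (hb : b ≠ 0) (K : ℕ) {ε : ℝ} (hε : 0 < ε) :
    ∀ᶠ N : ℕ in atTop, ∀ S : Set ℤ, Inv 1 S → ∀ δ : ℝ, HD 1 S δ → ∀ B B' : Finset ℤ, B ⊆ PN N → B' ⊆ PN N →
      ∀ c : ℤ, |c| ≤ N → ∀ G : ℤ → Prop, (∀ n m : ℤ, n % (2 ^ K : ℕ) = m % (2 ^ K : ℕ) → (G n ↔ G m)) →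
      |(((B ×ˢ B').filter (fun z => 0 < lf a b c z ∧ lf a b c z ∈ S ∧ G (lf a b c z))).card : ℝ) -
        δ * (((B ×ˢ B').filter (fun z => 0 < lf a b c z ∧ G (lf a b c z))).card : ℝ)| * Real.log N ^ 2 ≤ ε * N ^ 2 := by
  set q : ℕ := 2 ^ K with hq
  have hq0 : 0 < q := by positivity
  have hqz : (0 : ℤ) < q := by exact_mod_cast hq0
  have hqr : (0 : ℝ) < q := by exact_mod_cast hq0
  filter_upwards [Pool.Agent.TH204.CP.pairs (s := 1) (Or.inl rfl) ha hb (ε / q ^ 2) (by positivity)] with N hN S hS δ hδ B B' hB hB' c hc G hG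
  rw [← count_eq (B ×ˢ B') S δ G (lf a b c)]
  have hmaps : ∀ z ∈ B ×ˢ B', (z.1 % (q : ℤ), z.2 % (q : ℤ)) ∈ (Ico (0 : ℤ) q) ×ˢ (Ico (0 : ℤ) q) := by
    intro z _
    rw [mem_product, mem_Ico, mem_Ico]
    exact ⟨⟨Int.emod_nonneg _ hqz.ne', Int.emod_lt_of_pos _ hqz⟩, ⟨Int.emod_nonneg _ hqz.ne', Int.emod_lt_of_pos _ hqz⟩⟩
  rw [← sum_fiberwise_of_maps_to hmaps]
  have hin : ∀ w ∈ (Ico (0 : ℤ) q) ×ˢ (Ico (0 : ℤ) q),
      |∑ z ∈ (B ×ˢ B').filter (fun z => (z.1 % (q : ℤ), z.2 % (q : ℤ)) = w),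
        (if G (lf a b c z) then Fs 1 (bal 1 S δ) (lf a b c z) else 0)| * Real.log N ^ 2 ≤ ε / q ^ 2 * N ^ 2 := by
    rintro ⟨u, v⟩ _
    have hfib : (B ×ˢ B').filter (fun z => (z.1 % (q : ℤ), z.2 % (q : ℤ)) = (u, v)) =
        (B.filter (fun p => p % (q : ℤ) = u)) ×ˢ (B'.filter (fun p => p % (q : ℤ) = v)) := by
      ext z
      simp only [mem_filter, mem_product, Prod.mk.injEq]
      tauto
    have hGc : ∀ z ∈ (B ×ˢ B').filter (fun z => (z.1 % (q : ℤ), z.2 % (q : ℤ)) = (u, v)),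
        (G (lf a b c z) ↔ G (lf a b c (u, v))) := by
      intro z hz
      rw [mem_filter, Prod.mk.injEq] at hz
      apply hG
      obtain ⟨_, h1, h2⟩ := hz
      have h1' : z.1 ≡ u [ZMOD q] := by rw [← h1]; exact (Int.mod_modEq _ _).symm
      have h2' : z.2 ≡ v [ZMOD q] := by rw [← h2]; exact (Int.mod_modEq _ _).symm
      exact ((h1'.mul_left a).add (h2'.mul_left b)).add_right c
    rw [sum_congr rfl (fun z hz => if_congr (hGc z hz) rfl rfl)]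
    by_cases hGu : G (lf a b c (u, v))
    · simp only [if_pos hGu]
      rw [hfib, sum_product]
      have h1 := hN S hS δ hδ (B.filter (fun p => p % (q : ℤ) = u)) (B'.filter (fun p => p % (q : ℤ) = v))
        (fun p hp => by
          have := mem_PN.1 (hB (mem_filter.1 hp).1)
          rw [mem_Icc]; exact this.1)
        (fun p hp => by
          have := mem_PN.1 (hB' (mem_filter.1 hp).1)
          rw [mem_Icc]; exact this.1)
        (fun p hp => (mem_PN.1 (hB (mem_filter.1 hp).1)).2)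
        (fun p hp => (mem_PN.1 (hB' (mem_filter.1 hp).1)).2) c hc
      have e : ∀ p q' : ℤ, lf a b c (p, q') = a * p + (b * q' + c) := fun p q' => by unfold lf; ring
      simp only [e]
      exact h1
    · simp only [if_neg hGu, sum_const_zero, abs_zero, zero_mul]
      positivity
  calc |∑ w ∈ (Ico (0 : ℤ) q) ×ˢ (Ico (0 : ℤ) q), ∑ z ∈ (B ×ˢ B').filter (fun z => (z.1 % (q : ℤ), z.2 % (q : ℤ)) = w),
        (if G (lf a b c z) then Fs 1 (bal 1 S δ) (lf a b c z) else 0)| * Real.log N ^ 2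
      ≤ (∑ w ∈ (Ico (0 : ℤ) q) ×ˢ (Ico (0 : ℤ) q), |∑ z ∈ (B ×ˢ B').filter (fun z => (z.1 % (q : ℤ), z.2 % (q : ℤ)) = w),
        (if G (lf a b c z) then Fs 1 (bal 1 S δ) (lf a b c z) else 0)|) * Real.log N ^ 2 :=
        mul_le_mul_of_nonneg_right (abs_sum_le_sum_abs _ _) (by positivity)
    _ = ∑ w ∈ (Ico (0 : ℤ) q) ×ˢ (Ico (0 : ℤ) q), |∑ z ∈ (B ×ˢ B').filter (fun z => (z.1 % (q : ℤ), z.2 % (q : ℤ)) = w),
        (if G (lf a b c z) then Fs 1 (bal 1 S δ) (lf a b c z) else 0)| * Real.log N ^ 2 := sum_mul _ _ _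
    _ ≤ ∑ w ∈ (Ico (0 : ℤ) q) ×ˢ (Ico (0 : ℤ) q), ε / q ^ 2 * N ^ 2 := sum_le_sum hin
    _ = ε * N ^ 2 := by
        rw [sum_const, card_product, Int.card_Ico, nsmul_eq_mul]
        simp only [sub_zero, Int.toNat_natCast]
        push_cast
        field_simp

open Classical in
/-- EXCURSIONS ALONG LINEAR FORMS IN TWO PRIMES FROM ARBITRARY SETS -/
theorem part1 {β : ℝ} (hβ : Dn Bdd β) {lam : ℝ} (hl : 1 ≤ lam) {a b : ℤ} (ha : a ≠ 0) (hb : b ≠ 0) {ε : ℝ} (hε : 0 < ε) :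
    ∃ K0 : ℕ, ∀ K : ℕ, K0 ≤ K → ∀ᶠ N : ℕ in atTop, ∀ S : Set ℤ, Inv 1 S → (∀ n ∈ S, 0 < n ∧ Bdd n.toNat) →
      ∀ δ : ℝ, HD 1 S δ → ∀ B B' : Finset ℤ, B ⊆ PN N → B' ⊆ PN N → ∀ c : ℤ, |c| ≤ N →
      |(((B ×ˢ B').filter (fun z => lf a b c z ∈ S ∧ Ex lam (lf a b c z))).card : ℝ) -
        δ * (((B ×ˢ B').filter (fun z => 0 < lf a b c z ∧ AZ K lam (lf a b c z))).card : ℝ)| * Real.log N ^ 2 ≤ ε * N ^ 2 := by
  obtain ⟨K0, h0⟩ := exc_pairs hβ hl ha hb (show 0 < ε / 2 by positivity)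
  refine ⟨K0, fun K hK => ?_⟩
  filter_upwards [h0 K hK, inv_classes ha hb K (show 0 < ε / 2 by positivity)] with N h1 h2 S hS hSB δ hδ B B' hB hB' c hc
  have c1 := h1 c hc
  have c2 := h2 S hS δ hδ B B' hB hB' c hc (AZ K lam) (fun n m h => AZ_congr h)
  set A := (B ×ˢ B').filter (fun z => 0 < lf a b c z ∧ lf a b c z ∈ S ∧ AZ K lam (lf a b c z)) with hA
  set E := (B ×ˢ B').filter (fun z => lf a b c z ∈ S ∧ Ex lam (lf a b c z)) with hE
  set M := ((PN N ×ˢ PN N).filter (fun z => 0 < lf a b c z ∧ BB K lam (lf a b c z).toNat)) with hM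
  have hEA : E ⊆ A := by
    intro z hz
    rw [hE, mem_filter] at hz
    rw [hA, mem_filter]
    obtain ⟨hz1, hz2, g1, g2⟩ := hz
    refine ⟨hz1, g1, hz2, ?_⟩
    rw [AZ_nat g1]
    exact AK_of_bound hl (by omega) g2 K
  have hAE : A ⊆ E ∪ M := by
    intro z hz
    rw [hA, mem_filter, mem_product] at hz
    obtain ⟨⟨z1, z2⟩, z3, z4, z5⟩ := hz
    rw [mem_union]
    by_cases hex : Ex lam (lf a b c z)
    · left
      rw [hE, mem_filter, mem_product]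
      exact ⟨⟨z1, z2⟩, z4, hex⟩
    · right
      rw [hM, mem_filter, mem_product]
      obtain ⟨g1, g2⟩ := hSB _ z4
      exact ⟨⟨hB z1, hB' z2⟩, z3, ⟨(AZ_nat z3).1 z5, g2⟩, fun g5 => hex ⟨z3, g5⟩⟩
  have e1 : (E.card : ℝ) ≤ A.card := by exact_mod_cast card_le_card hEA
  have e2 : (A.card : ℝ) ≤ E.card + M.card := by
    exact_mod_cast (card_le_card hAE).trans (card_union_le _ _)
  have hlog : 0 ≤ Real.log N ^ 2 := by positivity
  have e3 : |(E.card : ℝ) - A.card| * Real.log N ^ 2 ≤ ε / 2 * N ^ 2 := by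
    refine (mul_le_mul_of_nonneg_right ?_ hlog).trans c1
    rw [abs_le]; constructor <;> linarith
  have e4 : |(E.card : ℝ) - δ * (((B ×ˢ B').filter (fun z => 0 < lf a b c z ∧ AZ K lam (lf a b c z))).card : ℝ)| ≤
      |(E.card : ℝ) - A.card| + |(A.card : ℝ) - δ * (((B ×ˢ B').filter (fun z => 0 < lf a b c z ∧ AZ K lam (lf a b c z))).card : ℝ)| :=
    abs_sub_le _ _ _
  have e5 := mul_le_mul_of_nonneg_right e4 hlog
  rw [add_mul] at e5
  linarith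

end Pool.Agent.TH465.SX
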