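import Pool.Agent.TH465.SX.P1
import Pool.Agent.H343R2.EH.Psi
import Pool.Agent.H343R2.EH.Primes

/-! Residues of linear forms in two primes modulo powers of two. -/

set_option autoImplicit false

namespace Pool.Agent.TH465.SX
open Finset Filter Topology
open H343E (piAP pi1)
open Pool.Agent.TH204.CP (ev_powR pi_unif)

/-- the prime number theorem in progressions to a fixed modulus -/
theorem sw_fixed {Q : ℕ} (hQ : 1 ≤ Q) {ε : ℝ} (hε : 0 < ε) : ∀ᶠ x : ℕ in atTop, ∀ a : ℕ, a < Q → a.Coprime Q →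
    |piAP x Q a - pi1 x / (Nat.totient Q : ℝ)| ≤ ε * (x / Real.log x) := by
  classical
  obtain ⟨B, x1, h⟩ := H343E.primes_of 2 (H343E.unsmoothed (2 + 2))
  filter_upwards [eventually_ge_atTop x1, ev_powR B ((Q : ℝ) ^ 2), Pool.Agent.W301.SS.ev_L (1 / ε + 1),
    eventually_ge_atTop 1] with x hx h1 h2 hx1 a ha hac
  have hxr : (1 : ℝ) ≤ x := by exact_mod_cast hx1
  have he : 0 < 1 / ε := by positivity
  have hL1 : 1 ≤ Real.log x := by linarith
  have hL0 : 0 < Real.log x := by linarith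
  have hB : 0 < Real.log x ^ B := by positivity
  have hQ1 : (1 : ℝ) ≤ Q := by exact_mod_cast hQ
  have hmain := h x hx 1 le_rfl Q (by
      rw [le_div_iff₀ hB]
      refine le_trans ?_ h1
      gcongr
      nlinarith) (by
      rw [one_mul, le_div_iff₀ hB]; exact h1)
    (fun q' => if q' = Q then {a} else ∅) ⟨by
      intro q' a' ha'
      split_ifs at ha' with hqq
      · rw [mem_singleton] at ha'
        rw [ha', hqq]
        exact ⟨ha, hac⟩
      · exact absurd ha' (notMem_empty _), by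
      intro q'
      split_ifs
      · simp
      · simp⟩
  rw [one_mul] at hmain
  have hq' : Q ∈ Icc 1 Q := mem_Icc.2 ⟨hQ, le_rfl⟩
  have h3 := single_le_sum (f := fun q' => ∑ a' ∈ (if q' = Q then ({a} : Finset ℕ) else ∅),
    |piAP x q' a' - pi1 x / (Nat.totient q' : ℝ)|)
    (fun i _ => sum_nonneg fun _ _ => abs_nonneg _) hq'
  beta_reduce at h3
  rw [if_pos rfl, sum_singleton] at h3
  refine (h3.trans hmain).trans ?_
  rw [mul_div_assoc', div_le_div_iff₀ (by positivity) hL0]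
  have h4 : 1 ≤ ε * Real.log x := by
    have : 1 / ε ≤ Real.log x := by linarith
    rw [div_le_iff₀ hε] at this
    linarith
  have h5 : (x : ℝ) * Real.log x * 1 ≤ (x : ℝ) * Real.log x * (ε * Real.log x) :=
    mul_le_mul_of_nonneg_left h4 (by positivity)
  calc (x : ℝ) * Real.log x = (x : ℝ) * Real.log x * 1 := by ring
    _ ≤ (x : ℝ) * Real.log x * (ε * Real.log x) := h5
    _ = ε * x * Real.log x ^ 2 := by ring

lemma piAP_mem (y Q a : ℕ) : 0 ≤ piAP y Q a ∧ piAP y Q a ≤ y := by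
  unfold piAP
  refine ⟨Nat.cast_nonneg _, ?_⟩
  have : ((Icc 1 y).filter (fun p => p.Prime ∧ p ≡ a [MOD Q])).card ≤ y := by
    refine (card_filter_le _ _).trans ?_
    rw [Nat.card_Icc]; omega
  exact_mod_cast this

lemma pi1_mem (y : ℕ) : 0 ≤ pi1 y ∧ pi1 y ≤ y := by
  unfold pi1
  refine ⟨Nat.cast_nonneg _, ?_⟩
  have : ((Icc 1 y).filter (fun p => p.Prime)).card ≤ y := by
    refine (card_filter_le _ _).trans ?_
    rw [Nat.card_Icc]; omega
  exact_mod_cast this

/-- uniformly for `y ≤ N` -/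
theorem ap_unif {Q : ℕ} (hQ : 1 ≤ Q) {ε : ℝ} (hε : 0 < ε) : ∀ᶠ N : ℕ in atTop, ∀ y : ℕ, y ≤ N → ∀ a : ℕ, a < Q →
    a.Coprime Q → |piAP y Q a - pi1 y / (Nat.totient Q : ℝ)| ≤ ε * (N / Real.log N) := by
  obtain ⟨x0, h0⟩ := eventually_atTop.1 (sw_fixed hQ hε)
  set y0 := max x0 3 with hy0
  filter_upwards [ev_powR 1 ((y0 : ℝ) / ε), eventually_ge_atTop 3] with N h1 hN y hy a ha hac
  have hNr : (3 : ℝ) ≤ N := by exact_mod_cast hN
  have hL0 : 0 < Real.log N := Real.log_pos (by linarith)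
  have htot : (1 : ℝ) ≤ (Nat.totient Q : ℝ) := by exact_mod_cast Nat.totient_pos.2 hQ
  by_cases hyy : y0 ≤ y
  · have h2 := h0 y ((le_max_left _ _).trans hyy) a ha hac
    refine h2.trans ?_
    apply mul_le_mul_of_nonneg_left _ hε.le
    have hy3 : (3 : ℝ) ≤ y := by exact_mod_cast (le_max_right x0 3).trans hyy
    have hyN : (y : ℝ) ≤ N := by exact_mod_cast hy
    have hLy : 0 < Real.log y := Real.log_pos (by linarith)
    have he : Real.exp 1 ≤ 3 := by linarith [Real.exp_one_lt_d9]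
    have h3 := Real.log_div_self_antitoneOn (a := (y : ℝ)) (b := (N : ℝ)) (by
      show Real.exp 1 ≤ (y : ℝ); linarith) (by show Real.exp 1 ≤ (N : ℝ); linarith) hyN
    simp only at h3
    rw [div_le_div_iff₀ (by linarith) (by linarith)] at h3
    rw [div_le_div_iff₀ hLy hL0]
    linarith
  · have h2 := piAP_mem y Q a
    have h3 := pi1_mem y
    have h4 : pi1 y / (Nat.totient Q : ℝ) ≤ y := (div_le_self h3.1 htot).trans h3.2
    have h5 : 0 ≤ pi1 y / (Nat.totient Q : ℝ) := div_nonneg h3.1 (by linarith)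
    have h6 : |piAP y Q a - pi1 y / (Nat.totient Q : ℝ)| ≤ y := by
      rw [abs_le]; constructor <;> linarith [h2.1, h2.2]
    refine h6.trans ?_
    have h7 : (y : ℝ) ≤ y0 := by exact_mod_cast (not_le.1 hyy).le
    refine h7.trans ?_
    rw [mul_div_assoc', le_div_iff₀ hL0]
    rw [pow_one, div_mul_eq_mul_div, div_le_iff₀ hε] at h1
    linarith

lemma PN_mod_card (y Q v : ℕ) (hv : v < Q) : (((PN y).filter (fun p => p % (Q : ℤ) = v)).card : ℝ) = piAP y Q v := by
  unfold piAP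
  congr 1
  apply card_nbij' (fun p : ℤ => p.toNat) (fun n : ℕ => (n : ℤ))
  · intro p hp
    rw [mem_coe, mem_filter, mem_PN] at hp
    rw [mem_coe, mem_filter, mem_Icc]
    obtain ⟨⟨h1, h2⟩, h3⟩ := hp
    refine ⟨by simp only; omega, h2, ?_⟩
    have h4 : ((p.toNat : ℕ) : ℤ) = p := by omega
    have h5 : ((p.toNat % Q : ℕ) : ℤ) = ((v % Q : ℕ) : ℤ) := by
      rw [Int.natCast_mod, h4, h3, Nat.mod_eq_of_lt hv]
    exact_mod_cast h5
  · intro n hn
    rw [mem_coe, mem_filter, mem_Icc] at hn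
    rw [mem_coe, mem_filter, mem_PN]
    obtain ⟨h1, h2, h3⟩ := hn
    refine ⟨⟨by simp only; omega, by rw [Int.toNat_natCast]; exact h2⟩, ?_⟩
    have h4 : n % Q = v := by
      have : n % Q = v % Q := h3
      rw [this, Nat.mod_eq_of_lt hv]
    rw [← Int.natCast_mod, h4]
  · intro p hp
    rw [mem_coe, mem_filter, mem_PN] at hp
    simp only
    omega
  · intro n _
    simp only [Int.toNat_natCast]

lemma PN_card (y : ℕ) : ((PN y).card : ℝ) = pi1 y := by
  have h1 := PN_mod_card y 1 0 one_pos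
  have h2 : (PN y).filter (fun p => p % ((1 : ℕ) : ℤ) = ((0 : ℕ) : ℤ)) = PN y := by
    apply filter_true_of_mem
    intro p _
    simp
  rw [h2] at h1
  rw [h1]
  unfold piAP pi1
  congr 2
  ext p
  rw [mem_filter, mem_filter]
  constructor
  · rintro ⟨a, b, _⟩; exact ⟨a, b⟩
  · rintro ⟨a, b⟩; exact ⟨a, b, by show p % 1 = 0 % 1; omega⟩

/-- the condition on the second prime describes an interval -/
lemma interval (N : ℕ) (e b : ℤ) (hb : b ≠ 0) : ∃ y1 y2 : ℕ, y1 ≤ y2 ∧ y2 ≤ N ∧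
    ∀ q : ℤ, 1 ≤ q → q ≤ N → (0 < e + b * q ↔ (y1 : ℤ) < q ∧ q ≤ y2) := by
  rcases lt_or_gt_of_ne hb with h | h
  · refine ⟨0, min N ((e - 1) / (-b)).toNat, Nat.zero_le _, min_le_left _ _, fun q h1 h2 => ?_⟩
    have h3 : q ≤ (e - 1) / (-b) ↔ q * (-b) ≤ e - 1 := Int.le_ediv_iff_mul_le (by omega)
    constructor
    · intro h4
      have h5 : q ≤ (e - 1) / (-b) := h3.2 (by nlinarith)
      refine ⟨by push_cast; omega, ?_⟩
      push_cast
      rw [le_min_iff]
      constructor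
      · exact h2
      · omega
    · rintro ⟨_, h5⟩
      push_cast at h5
      rw [le_min_iff] at h5
      have h6 : q ≤ (e - 1) / (-b) := by omega
      have := h3.1 h6
      nlinarith
  · refine ⟨min N ((-e) / b).toNat, N, min_le_left _ _, le_rfl, fun q h1 h2 => ?_⟩
    have h3 : (-e) / b < q ↔ -e < q * b := Int.ediv_lt_iff_lt_mul h
    constructor
    · intro h4
      have h5 : (-e) / b < q := h3.2 (by nlinarith)
      refine ⟨?_, h2⟩
      push_cast
      rw [min_lt_iff]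
      right
      omega
    · rintro ⟨h5, _⟩
      push_cast at h5
      rw [min_lt_iff] at h5
      have h6 : (-e) / b < q := by omega
      have := h3.1 h6
      nlinarith

lemma inter_card (N : ℕ) {y1 y2 : ℕ} (h12 : y1 ≤ y2) (h2 : y2 ≤ N) (R : ℤ → Prop) [DecidablePred R] :
    (((PN N).filter (fun q => ((y1 : ℤ) < q ∧ q ≤ y2) ∧ R q)).card : ℝ) =
      (((PN y2).filter R).card : ℝ) - (((PN y1).filter R).card : ℝ) := by
  have h3 : (PN y2).filter R = (PN N).filter (fun q => ((y1 : ℤ) < q ∧ q ≤ y2) ∧ R q) ∪ (PN y1).filter R := by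
    ext q
    rw [mem_union, mem_filter, mem_filter, mem_filter, mem_PN, mem_PN, mem_PN]
    constructor
    · rintro ⟨⟨⟨a1, a2⟩, a3⟩, a4⟩
      by_cases h : (y1 : ℤ) < q
      · left; exact ⟨⟨⟨a1, by omega⟩, a3⟩, ⟨h, a2⟩, a4⟩
      · right; exact ⟨⟨⟨a1, by omega⟩, a3⟩, a4⟩
    · rintro (⟨⟨⟨a1, _⟩, a3⟩, ⟨_, a5⟩, a4⟩ | ⟨⟨⟨a1, a2⟩, a3⟩, a4⟩)
      · exact ⟨⟨⟨a1, a5⟩, a3⟩, a4⟩
      · exact ⟨⟨⟨a1, by omega⟩, a3⟩, a4⟩
  have h4 : Disjoint ((PN N).filter (fun q => ((y1 : ℤ) < q ∧ q ≤ y2) ∧ R q)) ((PN y1).filter R) := by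
    rw [disjoint_left]
    intro q hq1 hq2
    rw [mem_filter] at hq1
    rw [mem_filter, mem_PN] at hq2
    omega
  rw [h3, card_union_of_disjoint h4]
  push_cast
  ring

/-- a shift of the residues -/
lemma shift_card {Q : ℕ} (hQ : 0 < Q) (G : ℤ → Prop) [DecidablePred G] (hG : ∀ n m : ℤ, n % (Q : ℤ) = m % (Q : ℤ) → (G n ↔ G m))
    (e b : ℤ) (hb : IsCoprime b (Q : ℤ)) :
    ((range Q).filter (fun v : ℕ => G (e + b * v))).card = ((range Q).filter (fun v : ℕ => G v)).card := by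
  classical
  have hQz : (0 : ℤ) < Q := by exact_mod_cast hQ
  set φ : ℕ → ℕ := fun v => ((e + b * v) % (Q : ℤ)).toNat with hφ
  have hφv : ∀ v, ((φ v : ℕ) : ℤ) = (e + b * v) % (Q : ℤ) := by
    intro v
    rw [hφ]
    simp only
    have := Int.emod_nonneg (e + b * v) hQz.ne'
    omega
  have hmap : ∀ v, φ v ∈ range Q := by
    intro v
    rw [mem_range]
    have h1 := hφv v
    have h2 := Int.emod_lt_of_pos (e + b * v) hQz
    omega
  have hinj : Set.InjOn φ (range Q) := by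
    intro v hv w hw h
    rw [mem_coe, mem_range] at hv hw
    have h1 : (e + b * v) % (Q : ℤ) = (e + b * w) % (Q : ℤ) := by rw [← hφv, ← hφv, h]
    have h2 : (Q : ℤ) ∣ b * ((v : ℤ) - w) := by
      have h3 : (Q : ℤ) ∣ (e + b * v) - (e + b * w) := Int.ModEq.dvd (Int.ModEq.symm h1)
      have h4 : (e + b * v) - (e + b * w) = b * ((v : ℤ) - w) := by ring
      rwa [h4] at h3
    have h3 : (Q : ℤ) ∣ (v : ℤ) - w := hb.symm.dvd_of_dvd_mul_left h2
    obtain ⟨k, hk⟩ := h3
    have h4 : k = 0 := by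
      by_contra hk0
      have : (Q : ℤ) ≤ |(v : ℤ) - w| := by
        rw [hk, abs_mul, abs_of_pos hQz]
        have : 1 ≤ |k| := Int.one_le_abs hk0
        nlinarith
      have h6 : |(v : ℤ) - w| < Q := by
        rw [abs_lt]; constructor <;> omega
      omega
    rw [h4, mul_zero] at hk
    omega
  have himg : (range Q).image φ = range Q := by
    apply eq_of_subset_of_card_le
    · intro x hx
      rw [mem_image] at hx
      obtain ⟨v, _, rfl⟩ := hx
      exact hmap v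
    · rw [card_image_of_injOn hinj]
  have h5 : (range Q).filter (fun v : ℕ => G v) = ((range Q).filter (fun v : ℕ => G (e + b * v))).image φ := by
    ext x
    rw [mem_filter, mem_image]
    constructor
    · rintro ⟨hx, hGx⟩
      rw [← himg, mem_image] at hx
      obtain ⟨v, hv, rfl⟩ := hx
      refine ⟨v, ?_, rfl⟩
      rw [mem_filter]
      refine ⟨hv, ?_⟩
      rw [hφv] at hGx
      exact (hG _ _ (Int.emod_emod_of_dvd _ dvd_rfl)).1 hGx
    · rintro ⟨v, hv, rfl⟩
      rw [mem_filter] at hv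
      refine ⟨hmap v, ?_⟩
      rw [hφv]
      exact (hG _ _ (Int.emod_emod_of_dvd _ dvd_rfl)).2 hv.2
  rw [h5, card_image_of_injOn]
  intro v hv w hw h
  rw [mem_coe, mem_filter] at hv hw
  exact hinj (mem_coe.2 hv.1) (mem_coe.2 hw.1) h

end Pool.Agent.TH465.SX
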