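import Pool.Agent.TH465.SX.P2

/-! The first parities of the values of linear forms in two primes. -/

set_option autoImplicit false

namespace Pool.Agent.TH465.SX
open Finset Filter Topology
open H343E (piAP pi1)
open Pool.Agent.TH204.CP (ev_powR pi_unif)
open Pool.Agent.H499R2.ND (Tn Td Bdd Bdd_inv AK AK_mod AK_of_bound rK Dn Inv HD)
open Pool.Agent.TH465.EX (AZ AZ_nat AZ_congr Ex BB exc_small)

lemma even_small {Q : ℕ} (hQ : 2 ∣ Q) (N v : ℕ) (hv : v % 2 = 0) :
    ((PN N).filter (fun q => q % (Q : ℤ) = v)).card ≤ 1 := by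
  rw [card_le_one]
  have key : ∀ q : ℤ, q ∈ (PN N).filter (fun q => q % (Q : ℤ) = v) → q = 2 := by
    intro q hq
    rw [mem_filter, mem_PN] at hq
    obtain ⟨⟨⟨h1, _⟩, h2⟩, h3⟩ := hq
    have h4 : q % 2 = 0 := by
      have h5 : (2 : ℤ) ∣ (Q : ℤ) := by exact_mod_cast hQ
      have h6 := Int.emod_emod_of_dvd q h5
      rw [h3] at h6
      omega
    rcases h2.eq_two_or_odd with h5 | h5
    · omega
    · omega
  intro x hx y hy
  rw [key x hx, key y hy]

/-- the proportion of the residues of the parity of `i` with the property `G` -/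
noncomputable def rho (K : ℕ) (G : ℤ → Prop) (i : ℤ) : ℝ := by
  classical
  exact (((range (2 ^ (K + 1))).filter (fun r : ℕ => ((r : ℤ) - i) % 2 = 0 ∧ G r)).card : ℝ) / 2 ^ K

lemma rho_nonneg (K : ℕ) (G : ℤ → Prop) (i : ℤ) : 0 ≤ rho K G i := by
  unfold rho; positivity

lemma rho_le (K : ℕ) (G : ℤ → Prop) (i : ℤ) : rho K G i ≤ 2 := by
  classical
  unfold rho
  rw [div_le_iff₀ (by positivity)]
  have : ((range (2 ^ (K + 1))).filter (fun r : ℕ => ((r : ℤ) - i) % 2 = 0 ∧ G r)).card ≤ 2 ^ (K + 1) := by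
    refine (card_filter_le _ _).trans ?_
    rw [card_range]
  have h2 : (((range (2 ^ (K + 1))).filter (fun r : ℕ => ((r : ℤ) - i) % 2 = 0 ∧ G r)).card : ℝ) ≤ 2 ^ (K + 1) := by
    exact_mod_cast this
  have h3 : (2 : ℝ) ^ (K + 1) = 2 * 2 ^ K := by ring
  rw [h3] at h2
  exact h2

lemma rho_congr (K : ℕ) (G : ℤ → Prop) {i j : ℤ} (h : (i - j) % 2 = 0) : rho K G i = rho K G j := by
  classical
  unfold rho
  congr 3
  apply filter_congr
  intro r _
  have : ((r : ℤ) - i) % 2 = 0 ↔ ((r : ℤ) - j) % 2 = 0 := by omega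
  rw [this]

open Classical in
/-- the fibres -/
theorem fib (K : ℕ) {b : ℤ} (hb : Odd b) {ε : ℝ} (hε : 0 < ε) : ∀ᶠ N : ℕ in atTop, ∀ e : ℤ, ∀ G : ℤ → Prop,
    (∀ n m : ℤ, n % (2 ^ (K + 1) : ℕ) = m % (2 ^ (K + 1) : ℕ) → (G n ↔ G m)) →
    |(((PN N).filter (fun q => 0 < e + b * q ∧ G (e + b * q))).card : ℝ) -
      rho K G (e + b) * (((PN N).filter (fun q => 0 < e + b * q)).card : ℝ)| ≤
      (2 ^ (K + 1) : ℕ) * (2 * (ε * (N / Real.log N)) + 1) := by
  set Q : ℕ := 2 ^ (K + 1) with hQ
  have hQ0 : 0 < Q := by positivity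
  have hQz : (0 : ℤ) < Q := by exact_mod_cast hQ0
  have h2Q : 2 ∣ Q := ⟨2 ^ K, by rw [hQ]; ring⟩
  have hQ2 : (Q : ℝ) = 2 * 2 ^ K := by rw [hQ]; push_cast; ring
  have hb0 : b ≠ 0 := by
    rintro rfl
    exact absurd hb (by decide)
  have htot : Nat.totient Q = 2 ^ K := by
    rw [hQ, Nat.totient_prime_pow Nat.prime_two (by omega)]
    simp
  filter_upwards [ap_unif (Q := Q) (by omega) hε, eventually_ge_atTop 3] with N h1 hN3 e G hG
  have hNr : (3 : ℝ) ≤ N := by exact_mod_cast hN3
  have hL0 : 0 < Real.log N := Real.log_pos (by linarith)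
  have hη0 : 0 ≤ 2 * (ε * (N / Real.log N)) := by positivity
  obtain ⟨y1, y2, h12, h2N, hint⟩ := interval N e b hb0
  have hcong : ∀ (R : ℤ → Prop) (inst : DecidablePred R), (((PN N).filter (fun q => 0 < e + b * q ∧ R q)).card : ℝ) =
      (((PN y2).filter R).card : ℝ) - (((PN y1).filter R).card : ℝ) := by
    intro R inst
    rw [← inter_card N h12 h2N R]
    congr 2
    apply filter_congr
    intro q hq
    have h3 := (mem_PN.1 hq).1
    rw [hint q h3.1 h3.2]
  set F : ℝ := (((PN N).filter (fun q => 0 < e + b * q)).card : ℝ) with hF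
  have hFe : F = pi1 y2 - pi1 y1 := by
    have := hcong (fun _ => True) inferInstance
    simp only [and_true, filter_true] at this
    rw [hF, this, PN_card, PN_card]
  set Fv : ℕ → ℝ := fun v => (((PN N).filter (fun q => 0 < e + b * q ∧ q % (Q : ℤ) = v)).card : ℝ) with hFv
  -- the sum over the residues
  have hT : (((PN N).filter (fun q => 0 < e + b * q ∧ G (e + b * q))).card : ℝ) =
      ∑ v ∈ range Q, (if G (e + b * v) then Fv v else 0) := by
    rw [card_eq_sum_card_fiberwise (f := fun q : ℤ => (q % (Q : ℤ)).toNat) (t := range Q)]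
    · push_cast
      apply sum_congr rfl
      intro v hv
      rw [mem_range] at hv
      have hmod : ∀ q : ℤ, (q % (Q : ℤ)).toNat = v ↔ q % (Q : ℤ) = v := by
        intro q
        have := Int.emod_nonneg q hQz.ne'
        omega
      have hGq : ∀ q : ℤ, q % (Q : ℤ) = v → (G (e + b * q) ↔ G (e + b * v)) := by
        intro q hq
        apply hG
        have h3 : q ≡ v [ZMOD Q] := by
          unfold Int.ModEq
          rw [hq, ← Int.natCast_mod, Nat.mod_eq_of_lt hv]
        exact (h3.mul_left b).add_left e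
      split_ifs with hGv
      · rw [hFv]
        simp only
        congr 2
        rw [filter_filter]
        apply filter_congr
        intro q _
        rw [hmod]
        constructor
        · rintro ⟨⟨a1, _⟩, a3⟩; exact ⟨a1, a3⟩
        · rintro ⟨a1, a3⟩; exact ⟨⟨a1, (hGq q a3).2 hGv⟩, a3⟩
      · norm_cast
        rw [card_eq_zero, filter_filter, filter_eq_empty_iff]
        rintro q _ ⟨⟨_, a2⟩, a3⟩
        rw [hmod] at a3
        exact hGv ((hGq q a3).1 a2)
    · intro q _
      rw [mem_coe, mem_range]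
      show (q % (Q : ℤ)).toNat < Q
      have h3 := Int.emod_nonneg q hQz.ne'
      have h4 := Int.emod_lt_of_pos q hQz
      omega
  have hshift := shift_card hQ0 (fun n : ℤ => (n - (e + b)) % 2 = 0 ∧ G n) (by
      intro n m hnm
      rw [hG n m hnm]
      have h5 : n % 2 = m % 2 := by
        have h6 : (2 : ℤ) ∣ (Q : ℤ) := by exact_mod_cast h2Q
        have h7 : n ≡ m [ZMOD Q] := hnm
        exact h7.of_dvd h6
      have h8 : (n - (e + b)) % 2 = 0 ↔ (m - (e + b)) % 2 = 0 := by omega
      rw [h8]) e b (by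
      rw [hQ]; push_cast
      apply IsCoprime.pow_right
      rw [Int.isCoprime_iff_gcd_eq_one]
      obtain ⟨k, hk⟩ := hb
      rw [hk]
      simp)
  have hpar : ∀ v : ℕ, (e + b * v - (e + b)) % 2 = 0 ↔ v % 2 = 1 := by
    intro v
    obtain ⟨k, hk⟩ := hb
    have : e + b * v - (e + b) = 2 * (k * ((v : ℤ) - 1)) + ((v : ℤ) - 1) := by rw [hk]; ring
    rw [this]
    omega
  have hR : rho K G (e + b) * F = ∑ v ∈ range Q, (if v % 2 = 1 ∧ G (e + b * v) then F / 2 ^ K else 0) := by
    have h3 : rho K G (e + b) = (((range Q).filter (fun v : ℕ => v % 2 = 1 ∧ G (e + b * v))).card : ℝ) / 2 ^ K := by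
      have : rho K G (e + b) = (((range Q).filter (fun r : ℕ => ((r : ℤ) - (e + b)) % 2 = 0 ∧ G r)).card : ℝ) / 2 ^ K := by
        unfold rho
        rw [hQ]
      rw [this, ← hshift]
      congr 3
      apply filter_congr
      intro v _
      rw [hpar]
    rw [h3, ← sum_filter, sum_const, nsmul_eq_mul]
    ring
  rw [hT, hR, ← sum_sub_distrib]
  refine (abs_sum_le_sum_abs _ _).trans ?_
  have hterm : ∀ v ∈ range Q, |(if G (e + b * v) then Fv v else 0) - (if v % 2 = 1 ∧ G (e + b * v) then F / 2 ^ K else 0)| ≤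
      2 * (ε * (N / Real.log N)) + 1 := by
    intro v hv
    rw [mem_range] at hv
    by_cases hGv : G (e + b * v)
    · rw [if_pos hGv]
      by_cases hv2 : v % 2 = 1
      · rw [if_pos ⟨hv2, hGv⟩]
        have hcop : v.Coprime Q := by
          rw [hQ]
          apply Nat.Coprime.pow_right
          exact (Nat.coprime_two_right).2 (Nat.odd_iff.2 hv2)
        have a1 := h1 y2 h2N v hv hcop
        have a2 := h1 y1 (h12.trans h2N) v hv hcop
        rw [htot] at a1 a2
        push_cast at a1 a2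
        have a3 : Fv v = piAP y2 Q v - piAP y1 Q v := by
          rw [hFv]
          simp only
          rw [hcong (fun q => q % (Q : ℤ) = v) inferInstance, PN_mod_card y2 Q v hv, PN_mod_card y1 Q v hv]
        rw [a3, hFe]
        have a4 : piAP y2 Q v - piAP y1 Q v - (pi1 y2 - pi1 y1) / 2 ^ K =
            (piAP y2 Q v - pi1 y2 / 2 ^ K) - (piAP y1 Q v - pi1 y1 / 2 ^ K) := by ring
        rw [a4]
        refine (abs_sub _ _).trans ?_
        linarith
      · rw [if_neg (fun h => hv2 h.1), sub_zero]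
        have a1 : Fv v ≤ 1 := by
          rw [hFv]
          simp only
          have a2 : ((PN N).filter (fun q => 0 < e + b * q ∧ q % (Q : ℤ) = v)).card ≤ 1 := by
            refine le_trans (card_le_card ?_) (even_small h2Q N v (by omega))
            intro q hq
            rw [mem_filter] at hq ⊢
            exact ⟨hq.1, hq.2.2⟩
          exact_mod_cast a2
        have a2 : 0 ≤ Fv v := by rw [hFv]; positivity
        rw [abs_of_nonneg a2]
        linarith
    · rw [if_neg hGv, if_neg (fun h => hGv h.2), sub_zero, abs_zero]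
      linarith
  refine (sum_le_sum hterm).trans ?_
  rw [sum_const, card_range, nsmul_eq_mul]

lemma card_prod {A B : Finset ℤ} (P : ℤ × ℤ → Prop) [DecidablePred P] :
    (((A ×ˢ B).filter P).card : ℝ) = ∑ p ∈ A, ((B.filter (fun q => P (p, q))).card : ℝ) := by
  rw [card_filter]
  push_cast
  rw [sum_product]
  apply sum_congr rfl
  intro p _
  rw [card_filter]
  push_cast
  rfl

lemma PN_le : ∀ᶠ N : ℕ in atTop, ((PN N).card : ℝ) * Real.log N ≤ 2 * N := by
  filter_upwards [pi_unif 1 one_pos] with N hN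
  have h1 := (abs_le.1 (hN N (by omega))).2
  have h2 : (PN N).card ≤ Nat.primeCounting N := Pool.Agent.TH204.CP.card_primes
    (fun p hp => by rw [mem_Icc]; exact (mem_PN.1 hp).1) (fun p hp => (mem_PN.1 hp).2)
  have h3 : ((PN N).card : ℝ) ≤ Nat.primeCounting N := by exact_mod_cast h2
  have h4 := mul_le_mul_of_nonneg_right h3 (Real.log_natCast_nonneg N)
  linarith

open Classical in
/-- the residues of the values of a linear form in two primes -/
theorem safe_pairs (K : ℕ) (a : ℤ) {b : ℤ} (hb : Odd b) {ε : ℝ} (hε : 0 < ε) : ∀ᶠ N : ℕ in atTop, ∀ c : ℤ, ∀ G : ℤ → Prop,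
    (∀ n m : ℤ, n % (2 ^ (K + 1) : ℕ) = m % (2 ^ (K + 1) : ℕ) → (G n ↔ G m)) →
    |(((PN N ×ˢ PN N).filter (fun z => 0 < lf a b c z ∧ G (lf a b c z))).card : ℝ) -
      rho K G (a + b + c) * (((PN N ×ˢ PN N).filter (fun z => 0 < lf a b c z)).card : ℝ)| * Real.log N ^ 2 ≤ ε * N ^ 2 := by
  set Q : ℝ := ((2 ^ (K + 1) : ℕ) : ℝ) with hQ
  have hQ0 : 0 < Q := by rw [hQ]; positivity
  filter_upwards [fib K hb (show 0 < ε / (8 * Q) by positivity), PN_le, ev_powR 1 ((4 * Q + 8) / ε),
    eventually_ge_atTop 3] with N h1 h2 h3 hN3 c G hG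
  have hNr : (3 : ℝ) ≤ N := by exact_mod_cast hN3
  have hL0 : 0 < Real.log N := Real.log_pos (by linarith)
  rw [card_prod, card_prod, mul_sum, ← sum_sub_distrib]
  have e : ∀ p q : ℤ, lf a b c (p, q) = (a * p + c) + b * q := fun p q => by unfold lf; ring
  simp only [e]
  have hterm : ∀ p ∈ PN N, |(((PN N).filter (fun q => 0 < (a * p + c) + b * q ∧ G ((a * p + c) + b * q))).card : ℝ) -
      rho K G (a + b + c) * (((PN N).filter (fun q => 0 < (a * p + c) + b * q)).card : ℝ)| ≤
      Q * (2 * (ε / (8 * Q) * (N / Real.log N)) + 1) + (if p = 2 then 2 * ((PN N).card : ℝ) else 0) := by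
    intro p hp
    have hη : 0 ≤ Q * (2 * (ε / (8 * Q) * (N / Real.log N)) + 1) := by positivity
    by_cases hp2 : p = 2
    · rw [if_pos hp2]
      have a1 : (((PN N).filter (fun q => 0 < (a * p + c) + b * q ∧ G ((a * p + c) + b * q))).card : ℝ) ≤ (PN N).card := by
        exact_mod_cast card_filter_le _ _
      have a2 : (((PN N).filter (fun q => 0 < (a * p + c) + b * q)).card : ℝ) ≤ (PN N).card := by
        exact_mod_cast card_filter_le _ _
      have a3 := rho_nonneg K G (a + b + c)
      have a4 := rho_le K G (a + b + c)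
      have a5 : rho K G (a + b + c) * (((PN N).filter (fun q => 0 < (a * p + c) + b * q)).card : ℝ) ≤ 2 * (PN N).card :=
        mul_le_mul a4 a2 (Nat.cast_nonneg _) (by norm_num)
      have a6 : 0 ≤ rho K G (a + b + c) * (((PN N).filter (fun q => 0 < (a * p + c) + b * q)).card : ℝ) := by positivity
      have a7 : (0 : ℝ) ≤ (((PN N).filter (fun q => 0 < (a * p + c) + b * q ∧ G ((a * p + c) + b * q))).card : ℝ) :=
        Nat.cast_nonneg _
      have a8 : (0 : ℝ) ≤ (PN N).card := Nat.cast_nonneg _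
      rw [abs_le]; constructor <;> linarith
    · rw [if_neg hp2, add_zero]
      have hpo : p % 2 = 1 := by
        have h5 := mem_PN.1 hp
        rcases h5.2.eq_two_or_odd with h6 | h6 <;> omega
      have h4 := h1 (a * p + c) G hG
      have h5 : rho K G (a * p + c + b) = rho K G (a + b + c) := by
        apply rho_congr
        have : a * p + c + b - (a + b + c) = a * (p - 1) := by ring
        rw [this]
        obtain ⟨k, hk⟩ : ∃ k, p - 1 = 2 * k := ⟨(p - 1) / 2, by omega⟩
        rw [hk]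
        have : a * (2 * k) = 2 * (a * k) := by ring
        rw [this]
        omega
      rw [h5] at h4
      exact h4
  have hsum := (abs_sum_le_sum_abs _ _).trans (sum_le_sum hterm)
  have hsum2 : ∑ p ∈ PN N, (Q * (2 * (ε / (8 * Q) * (N / Real.log N)) + 1) + (if p = 2 then 2 * ((PN N).card : ℝ) else 0)) ≤
      (PN N).card * (Q * (2 * (ε / (8 * Q) * (N / Real.log N)) + 1)) + 2 * (PN N).card := by
    rw [sum_add_distrib, sum_const, nsmul_eq_mul]
    have : ∑ p ∈ PN N, (if p = 2 then 2 * ((PN N).card : ℝ) else 0) ≤ 2 * (PN N).card := by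
      rw [sum_ite_eq']
      split_ifs
      · exact le_rfl
      · positivity
    linarith
  have hfin := mul_le_mul_of_nonneg_right (hsum.trans hsum2) (show 0 ≤ Real.log N ^ 2 by positivity)
  refine hfin.trans ?_
  have f1 : ((PN N).card * (Q * (2 * (ε / (8 * Q) * (N / Real.log N)) + 1)) + 2 * (PN N).card) * Real.log N ^ 2 =
      ((PN N).card * Real.log N) * (ε / 4 * N + (Q + 2) * Real.log N) := by
    field_simp
    ring
  rw [f1]
  rw [pow_one, div_mul_eq_mul_div, div_le_iff₀ hε] at h3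
  have f2 : (Q + 2) * Real.log N ≤ ε / 4 * N := by linarith
  calc ((PN N).card * Real.log N) * (ε / 4 * N + (Q + 2) * Real.log N) ≤ (2 * N) * (ε / 4 * N + (Q + 2) * Real.log N) :=
        mul_le_mul_of_nonneg_right h2 (by positivity)
    _ ≤ (2 * N) * (ε / 4 * N + ε / 4 * N) := mul_le_mul_of_nonneg_left (by linarith) (by positivity)
    _ = ε * N ^ 2 := by ring

end Pool.Agent.TH465.SX
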