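import Pool.Agent.TH465.SX.P3
import Pool.Agent.TH465.SC.Conc

/-! Excursions along linear forms in two primes. -/

set_option autoImplicit false

namespace Pool.Agent.TH465.SX
open Finset Filter Topology
open H343E (piAP pi1)
open Pool.Agent.TH204.CP (ev_powR pi_unif)
open Pool.Agent.H499R2.ND (Tn Td Bdd Bdd_inv AK AK_mod AK_of_bound rK Dn Inv HD)
open Pool.Agent.TH465.EX (AZ AZ_nat AZ_congr Ex BB exc_small)
open Pool.Agent.Helper894.Collatz (od od_add)

lemma od_front (j n : ℕ) : od (j + 1) n = n % 2 + od j (Tn n) := by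
  rw [add_comm j 1, od_add]
  have : od 1 n = n % 2 := by simp [od]
  rw [this]
  rfl

lemma AK_step (K : ℕ) (lam : ℝ) (n : ℕ) :
    AK (K + 1) lam n ↔ (3 : ℝ) ^ (n % 2) < 2 * lam ∧ AK K (2 * lam / 3 ^ (n % 2)) (Tn n) := by
  unfold AK
  constructor
  · intro h
    refine ⟨?_, fun k hk1 hk2 => ?_⟩
    · have := h 1 le_rfl (by omega)
      rw [show (1 : ℕ) = 0 + 1 by rfl, od_front] at this
      simp [od] at this
      linarith
    · have := h (k + 1) (by omega) (by omega)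
      rw [od_front, pow_add, pow_succ] at this
      rw [div_mul_eq_mul_div, lt_div_iff₀ (by positivity)]
      linarith
  · rintro ⟨h2, h3⟩ k hk1 hk2
    obtain ⟨j, rfl⟩ : ∃ j, k = j + 1 := ⟨k - 1, by omega⟩
    rcases Nat.eq_zero_or_pos j with rfl | hj
    · rw [od_front]
      simp [od]
      linarith
    · have := h3 j hj (by omega)
      rw [div_mul_eq_mul_div, lt_div_iff₀ (by positivity)] at this
      rw [od_front, pow_add, pow_succ]
      linarith

lemma AZ_cast (K : ℕ) (lam : ℝ) (r : ℕ) : AZ K lam (r : ℤ) ↔ AK K lam r := by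
  unfold AZ
  rw [← Int.natCast_mod, Int.toNat_natCast, AK_mod]

lemma rho_even {lam : ℝ} (hl : 1 ≤ lam) (K : ℕ) {i : ℤ} (hi : i % 2 = 0) : rho K (AZ (K + 1) lam) i = rK K (2 * lam) := by
  classical
  unfold rho rK
  congr 2
  apply card_nbij' (fun r => r / 2) (fun r => 2 * r)
  · intro r hr
    rw [mem_coe, mem_filter, mem_range, AZ_cast, AK_step] at hr
    obtain ⟨h1, h2, h3, h4⟩ := hr
    have h5 : r % 2 = 0 := by omega
    rw [h5, pow_zero, div_one] at h4
    have h6 : Tn r = r / 2 := by unfold Tn; rw [if_pos h5]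
    rw [h6] at h4
    rw [mem_coe, mem_filter, mem_range]
    refine ⟨?_, h4⟩
    rw [pow_succ] at h1
    simp only
    omega
  · intro r hr
    rw [mem_coe, mem_filter, mem_range] at hr
    rw [mem_coe, mem_filter, mem_range, AZ_cast, AK_step]
    have h5 : 2 * r % 2 = 0 := by omega
    have h6 : Tn (2 * r) = r := by unfold Tn; rw [if_pos h5]; omega
    rw [h5, h6, pow_zero, div_one]
    refine ⟨by rw [pow_succ]; simp only; omega, by push_cast; omega, by linarith, hr.2⟩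
  · intro r hr
    rw [mem_coe, mem_filter] at hr
    show 2 * (r / 2) = r
    omega
  · intro r _
    show 2 * r / 2 = r
    omega

lemma rho_odd_zero {lam : ℝ} (hl : lam ≤ 3 / 2) (K : ℕ) {i : ℤ} (hi : i % 2 = 1) : rho K (AZ (K + 1) lam) i = 0 := by
  classical
  unfold rho
  have : (range (2 ^ (K + 1))).filter (fun r : ℕ => ((r : ℤ) - i) % 2 = 0 ∧ AZ (K + 1) lam r) = ∅ := by
    rw [filter_eq_empty_iff]
    rintro r _ ⟨h1, h2⟩
    rw [AZ_cast, AK_step] at h2
    have h3 : r % 2 = 1 := by omega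
    have h4 := h2.1
    rw [h3, pow_one] at h4
    linarith
  rw [this]
  simp

lemma rho_odd {lam : ℝ} (hl : 3 / 2 < lam) (K : ℕ) {i : ℤ} (hi : i % 2 = 1) :
    rho K (AZ (K + 1) lam) i = rK K (2 * lam / 3) := by
  classical
  unfold rho rK
  congr 2
  have hshift := shift_card (Q := 2 ^ K) (by positivity) (fun n => AZ K (2 * lam / 3) n) (fun n m h => AZ_congr h) 2 3
    (by
      push_cast
      apply IsCoprime.pow_right
      exact ⟨1, -1, by norm_num⟩)
  have h1 : ((range (2 ^ K)).filter (AK K (2 * lam / 3))).card =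
      ((range (2 ^ K)).filter (fun v : ℕ => AZ K (2 * lam / 3) v)).card := by
    congr 1
    apply filter_congr
    intro v _
    rw [AZ_cast]
  rw [h1, ← hshift]
  have hT : ∀ r : ℕ, Tn (2 * r + 1) = 2 + 3 * r := by
    intro r
    unfold Tn
    rw [if_neg (by omega)]
    omega
  have hc : ∀ r : ℕ, (2 + 3 * (r : ℤ)) = ((2 + 3 * r : ℕ) : ℤ) := by intro r; push_cast; ring
  apply card_nbij' (fun r => r / 2) (fun r => 2 * r + 1)
  · intro r hr
    rw [mem_coe, mem_filter, mem_range, AZ_cast, AK_step] at hr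
    obtain ⟨h1, h2, h3, h4⟩ := hr
    have h5 : r % 2 = 1 := by omega
    rw [h5, pow_one] at h4
    have h6 : r = 2 * (r / 2) + 1 := by omega
    have h7 : Tn r = 2 + 3 * (r / 2) := by
      conv_lhs => rw [h6]
      exact hT _
    rw [h7] at h4
    rw [mem_coe, mem_filter, mem_range, hc, AZ_cast]
    refine ⟨?_, h4⟩
    rw [pow_succ] at h1
    simp only
    omega
  · intro r hr
    rw [mem_coe, mem_filter, mem_range, hc, AZ_cast] at hr
    rw [mem_coe, mem_filter, mem_range, AZ_cast, AK_step]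
    have h5 : (2 * r + 1) % 2 = 1 := by omega
    rw [h5, pow_one, hT]
    refine ⟨by rw [pow_succ]; simp only; omega, by push_cast; omega, by linarith, hr.2⟩
  · intro r hr
    rw [mem_coe, mem_filter] at hr
    show 2 * (r / 2) + 1 = r
    omega
  · intro r _
    show (2 * r + 1) / 2 = r
    omega

/-- the limit for the parity `i` -/
noncomputable def LL (q : ℝ → ℝ) (lam : ℝ) (i : ℤ) : ℝ :=
  if i % 2 = 0 then q (2 * lam) else if 3 / 2 < lam then q (2 * lam / 3) else 0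

lemma LL_congr (q : ℝ → ℝ) (lam : ℝ) {i j : ℤ} (h : i % 2 = j % 2) : LL q lam i = LL q lam j := by
  unfold LL; rw [h]

theorem rho_tendsto {q : ℝ → ℝ} (hq : ∀ lam, 1 ≤ lam → Tendsto (fun K => rK K lam) atTop (𝓝 (q lam))) {lam : ℝ}
    (hl : 1 ≤ lam) (i : ℤ) : Tendsto (fun K => rho K (AZ (K + 1) lam) i) atTop (𝓝 (LL q lam i)) := by
  unfold LL
  split_ifs with h1 h2
  · exact (hq (2 * lam) (by linarith)).congr fun K => (rho_even hl K h1).symm
  · exact (hq (2 * lam / 3) (by linarith)).congr fun K => (rho_odd h2 K (by omega)).symm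
  · exact tendsto_const_nhds.congr fun K => (rho_odd_zero (by linarith) K (by omega)).symm

open Classical in
theorem part2 {β : ℝ} (hβ : Dn Bdd β) {q : ℝ → ℝ} (hq : ∀ lam, 1 ≤ lam → Tendsto (fun K => rK K lam) atTop (𝓝 (q lam)))
    {lam : ℝ} (hl : 1 ≤ lam) {a b : ℤ} (ha : a ≠ 0) (hb : Odd b) {ε : ℝ} (hε : 0 < ε) :
    ∀ᶠ N : ℕ in atTop, ∀ S : Set ℤ, Inv 1 S → (∀ n ∈ S, 0 < n ∧ Bdd n.toNat) →
      ∀ δ : ℝ, HD 1 S δ → ∀ c : ℤ, |c| ≤ N →
      |(((PN N ×ˢ PN N).filter (fun z => lf a b c z ∈ S ∧ Ex lam (lf a b c z))).card : ℝ) -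
        δ * (LL q lam (a + b + c) * (((PN N ×ˢ PN N).filter (fun z => 0 < lf a b c z)).card : ℝ))| * Real.log N ^ 2 ≤ ε * N ^ 2 := by
  have hb0 : b ≠ 0 := by
    rintro rfl
    exact absurd hb (by decide)
  obtain ⟨K0, hK0⟩ := part1 hβ hl ha hb0 (show 0 < ε / 4 by positivity)
  obtain ⟨K1, hK1⟩ := Metric.tendsto_atTop.1 (rho_tendsto hq hl 0) (ε / 16) (by positivity)
  obtain ⟨K2, hK2⟩ := Metric.tendsto_atTop.1 (rho_tendsto hq hl 1) (ε / 16) (by positivity)
  set K := max K0 (max K1 K2) with hK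
  have hr0 := hK1 K ((le_max_left _ _).trans (le_max_right _ _))
  have hr1 := hK2 K ((le_max_right _ _).trans (le_max_right _ _))
  rw [Real.dist_eq] at hr0 hr1
  have hr : ∀ i : ℤ, |rho K (AZ (K + 1) lam) i - LL q lam i| ≤ ε / 16 := by
    intro i
    rcases Int.emod_two_eq_zero_or_one i with h | h
    · rw [rho_congr K (AZ (K + 1) lam) (show (i - 0) % 2 = 0 by omega), LL_congr q lam (show i % 2 = 0 % 2 by omega)]
      exact hr0.le
    · rw [rho_congr K (AZ (K + 1) lam) (show (i - 1) % 2 = 0 by omega), LL_congr q lam (show i % 2 = 1 % 2 by omega)]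
      exact hr1.le
  filter_upwards [hK0 (K + 1) ((le_max_left _ _).trans (Nat.le_succ _)), safe_pairs K a hb (show 0 < ε / 4 by positivity),
    PN_le] with N h1 h2 h3 S hS hSB δ hδ c hc
  obtain ⟨d0, d1⟩ := Pool.Agent.W41.FU.HD_mem (Or.inl rfl) hδ
  have g1 := h1 S hS hSB δ hδ (PN N) (PN N) (Subset.refl _) (Subset.refl _) c hc
  have g2 := h2 c (AZ (K + 1) lam) (fun n m h => AZ_congr h)
  have g3 := hr (a + b + c)
  set E : ℝ := (((PN N ×ˢ PN N).filter (fun z => lf a b c z ∈ S ∧ Ex lam (lf a b c z))).card : ℝ) with hE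
  set A : ℝ := (((PN N ×ˢ PN N).filter (fun z => 0 < lf a b c z ∧ AZ (K + 1) lam (lf a b c z))).card : ℝ) with hA
  set X : ℝ := (((PN N ×ˢ PN N).filter (fun z => 0 < lf a b c z)).card : ℝ) with hX
  set r := rho K (AZ (K + 1) lam) (a + b + c) with hrd
  set l := LL q lam (a + b + c) with hl'
  have hX0 : 0 ≤ X := Nat.cast_nonneg _
  have hL : 0 ≤ Real.log N := Real.log_natCast_nonneg N
  have hXb : X * Real.log N ^ 2 ≤ 4 * N ^ 2 := by
    have k1 : X ≤ ((PN N).card : ℝ) * (PN N).card := by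
      rw [hX]
      have : ((PN N ×ˢ PN N).filter (fun z => 0 < lf a b c z)).card ≤ (PN N).card * (PN N).card :=
        (card_filter_le _ _).trans (card_product _ _).le
      exact_mod_cast this
    have k0 : 0 ≤ ((PN N).card : ℝ) * Real.log N := by positivity
    calc X * Real.log N ^ 2 ≤ (((PN N).card : ℝ) * (PN N).card) * Real.log N ^ 2 := mul_le_mul_of_nonneg_right k1 (by positivity)
      _ = (((PN N).card : ℝ) * Real.log N) * (((PN N).card : ℝ) * Real.log N) := by ring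
      _ ≤ (2 * N) * (2 * N) := mul_le_mul h3 h3 k0 (by positivity)
      _ = 4 * N ^ 2 := by ring
  have e1 : E - δ * (l * X) = (E - δ * A) + δ * ((A - r * X) + (r - l) * X) := by ring
  have e2 : |E - δ * (l * X)| ≤ |E - δ * A| + (|A - r * X| + |r - l| * X) := by
    rw [e1]
    refine (abs_add_le _ _).trans (add_le_add le_rfl ?_)
    rw [abs_mul, abs_of_nonneg d0]
    have k1 : |(A - r * X) + (r - l) * X| ≤ |A - r * X| + |r - l| * X := by
      refine (abs_add_le _ _).trans ?_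
      rw [abs_mul (r - l), abs_of_nonneg hX0]
    calc δ * |(A - r * X) + (r - l) * X| ≤ 1 * |(A - r * X) + (r - l) * X| := mul_le_mul_of_nonneg_right d1 (abs_nonneg _)
      _ = |(A - r * X) + (r - l) * X| := one_mul _
      _ ≤ _ := k1
  have e3 := mul_le_mul_of_nonneg_right e2 (show 0 ≤ Real.log N ^ 2 by positivity)
  rw [add_mul, add_mul] at e3
  have e4 : |r - l| * X * Real.log N ^ 2 ≤ ε / 4 * N ^ 2 := by
    calc |r - l| * X * Real.log N ^ 2 = |r - l| * (X * Real.log N ^ 2) := by ring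
      _ ≤ ε / 16 * (4 * N ^ 2) := mul_le_mul g3 hXb (by positivity) (by positivity)
      _ = ε / 4 * N ^ 2 := by ring
  have hNN : 0 ≤ ε * (N : ℝ) ^ 2 := by positivity
  linarith

lemma FP_X (n : ℕ) : (((PN n ×ˢ PN n).filter (fun z => 0 < lf (-1) (-1) n z)).card : ℝ) =
    ({z : ℕ × ℕ | z ∈ Pool.Agent.TH465.HP.FP n ∧ True}.ncard : ℝ) := by
  have h1 : {z : ℕ × ℕ | z ∈ Pool.Agent.TH465.HP.FP n ∧ True} = ((Pool.Agent.TH465.HP.FP n : Finset (ℕ × ℕ)) : Set (ℕ × ℕ)) := by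
    ext z
    simp
  rw [h1, Set.ncard_coe_finset]
  congr 1
  apply card_nbij' (fun z : ℤ × ℤ => (z.1.toNat, z.2.toNat)) (fun z : ℕ × ℕ => ((z.1 : ℤ), (z.2 : ℤ)))
  · rintro ⟨x, y⟩ hz
    rw [mem_coe, mem_filter, mem_product, mem_PN, mem_PN] at hz
    obtain ⟨⟨⟨⟨h1, h2⟩, h3⟩, ⟨h4, h5⟩, h6⟩, h7⟩ := hz
    unfold lf at h7
    simp only at h1 h2 h3 h4 h5 h6 h7
    rw [mem_coe]
    unfold Pool.Agent.TH465.HP.FP
    rw [mem_filter, mem_product, mem_range, mem_range]
    simp only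
    refine ⟨⟨by omega, by omega⟩, h3, h6, by omega⟩
  · rintro ⟨x, y⟩ hz
    rw [mem_coe] at hz
    unfold Pool.Agent.TH465.HP.FP at hz
    rw [mem_filter, mem_product, mem_range, mem_range] at hz
    simp only at hz
    obtain ⟨⟨h1, h2⟩, h3, h4, h5⟩ := hz
    have h6 := h3.two_le
    have h7 := h4.two_le
    rw [mem_coe, mem_filter, mem_product, mem_PN, mem_PN]
    unfold lf
    simp only [Int.toNat_natCast]
    refine ⟨⟨⟨⟨by omega, by omega⟩, h3⟩, ⟨⟨by omega, by omega⟩, h4⟩⟩, by omega⟩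
  · rintro ⟨x, y⟩ hz
    rw [mem_coe, mem_filter, mem_product, mem_PN, mem_PN] at hz
    simp only [Prod.mk.injEq] at hz ⊢
    omega
  · rintro ⟨x, y⟩ _
    simp only [Int.toNat_natCast]

open Classical in
theorem part3 {β : ℝ} (hβ : Dn Bdd β) {q : ℝ → ℝ} (hq : ∀ lam, 1 ≤ lam → Tendsto (fun K => rK K lam) atTop (𝓝 (q lam)))
    {lam : ℝ} (hl : 1 ≤ lam) (hq1 : ∀ i, |LL q lam i| ≤ 1) {ε : ℝ} (hε : 0 < ε) :
    ∀ᶠ n : ℕ in atTop, ∀ S : Set ℤ, Inv 1 S → (∀ n ∈ S, 0 < n ∧ Bdd n.toNat) → ∀ δ : ℝ, HD 1 S δ →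
      |(((PN n ×ˢ PN n).filter (fun z => lf (-1) (-1) n z ∈ S ∧ Ex lam (lf (-1) (-1) n z))).card : ℝ) * Real.log n ^ 2 -
        δ * (LL q lam n * (n ^ 2 / 2))| ≤ ε * n ^ 2 := by
  have h0 := (Pool.Agent.TH465.SC.AP_true (ε / 2) (by positivity)).1
  filter_upwards [h0, part2 hβ hq hl (a := -1) (b := -1) (by norm_num) (by decide) (show 0 < ε / 2 by positivity)] with n h1 h2 S hS hSB δ hδ
  obtain ⟨d0, d1⟩ := Pool.Agent.W41.FU.HD_mem (Or.inl rfl) hδ
  have g1 := h2 S hS hSB δ hδ n (by simp)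
  have g2 : LL q lam (-1 + -1 + (n : ℤ)) = LL q lam n := LL_congr q lam (by omega)
  rw [g2] at g1
  rw [← FP_X] at h1
  set X : ℝ := (((PN n ×ˢ PN n).filter (fun z => 0 < lf (-1) (-1) n z)).card : ℝ) with hX
  set E : ℝ := (((PN n ×ˢ PN n).filter (fun z => lf (-1) (-1) n z ∈ S ∧ Ex lam (lf (-1) (-1) n z))).card : ℝ) with hE
  set l := LL q lam n with hl'
  have hL2 : 0 ≤ Real.log n ^ 2 := by positivity
  have e1 : E * Real.log n ^ 2 - δ * (l * (n ^ 2 / 2)) =
      (E - δ * (l * X)) * Real.log n ^ 2 + (δ * l) * (X * Real.log n ^ 2 - 1 * (n ^ 2 / 2)) := by ring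
  rw [e1]
  refine (abs_add_le _ _).trans ?_
  rw [abs_mul, abs_of_nonneg hL2, abs_mul (δ * l)]
  have e2 : |δ * l| ≤ 1 := by
    rw [abs_mul, abs_of_nonneg d0]
    exact mul_le_one₀ d1 (abs_nonneg _) (hq1 n)
  have e3 : |δ * l| * |X * Real.log n ^ 2 - 1 * (n ^ 2 / 2)| ≤ 1 * (ε / 2 * n ^ 2) :=
    mul_le_mul e2 h1 (abs_nonneg _) (by norm_num)
  linarith

end Pool.Agent.TH465.SX
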