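import Pool.Agent.TH465.SX.En
import Pool.Agent.W93.GB4
import Pool.Agent.TH935.GF3
import Pool.Agent.Erdos456.Mertens

/-! The additive energy of the primes and linear forms in two primes with values in a given set. -/

set_option autoImplicit false

namespace Pool.Agent.TH465.SX
open Finset Filter Topology
open Pool.Agent.H560R3.GB (g HL sing C₂ energy)

/-- the primes up to `N` -/
noncomputable def PN (N : ℕ) : Finset ℤ := (Icc (1 : ℤ) N).filter (fun p => p.toNat.Prime)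

lemma rep_le_g (N n : ℕ) : ((PN N ×ˢ PN N).filter (fun z => z.1 + z.2 = (n : ℤ))).card ≤ g n := by
  unfold g
  apply card_le_card_of_injOn (fun z : ℤ × ℤ => (z.1.toNat, z.2.toNat))
  · intro z hz
    rw [mem_coe, mem_filter, mem_product] at hz
    obtain ⟨⟨h1, h2⟩, h3⟩ := hz
    unfold PN at h1 h2
    rw [mem_filter, mem_Icc] at h1 h2
    rw [mem_coe, mem_filter, Finset.HasAntidiagonal.mem_antidiagonal]
    exact ⟨by show z.1.toNat + z.2.toNat = n; omega, h1.2, h2.2⟩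
  · rintro ⟨x, y⟩ hz ⟨x', y'⟩ hz' h
    rw [mem_coe, mem_filter, mem_product] at hz hz'
    unfold PN at hz hz'
    simp only [mem_filter, mem_Icc, Prod.mk.injEq] at hz hz' h ⊢
    omega

lemma g_le (n : ℕ) : g n ≤ n + 1 := by
  unfold g
  refine (card_filter_le _ _).trans ?_
  rw [Nat.card_antidiagonal]

lemma g_odd (n : ℕ) (h : n % 2 = 1) : g n ≤ 2 := by
  unfold g
  have hsub : (antidiagonal n).filter (fun q : ℕ × ℕ => q.1.Prime ∧ q.2.Prime) ⊆ {(2, n - 2), (n - 2, 2)} := by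
    rintro ⟨x, y⟩ hz
    rw [mem_filter, Finset.HasAntidiagonal.mem_antidiagonal] at hz
    obtain ⟨h1, h2, h3⟩ := hz
    simp only at h1 h2 h3
    rw [mem_insert, mem_singleton, Prod.mk.injEq, Prod.mk.injEq]
    rcases h2.eq_two_or_odd with h4 | h4
    · left; omega
    · rcases h3.eq_two_or_odd with h5 | h5
      · right; omega
      · omega
  refine (card_le_card hsub).trans ?_
  exact card_le_two

lemma energy_sum (N : ℕ) : co (PN N ×ˢ PN N) (fun z => z.1 + z.2) (fun z => z.1 + z.2) ≤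
    ∑ n ∈ Icc 1 (2 * N), g n ^ 2 := by
  classical
  rw [co_eq _ _ _ ((Icc 1 (2 * N)).image (fun n : ℕ => (n : ℤ)))]
  · rw [sum_image (fun x _ y _ h => by exact_mod_cast h)]
    apply sum_le_sum
    intro n _
    rw [sq]
    exact Nat.mul_le_mul (rep_le_g N n) (rep_le_g N n)
  · rintro ⟨x, y⟩ hz
    rw [mem_product] at hz
    unfold PN at hz
    simp only [mem_filter, mem_Icc] at hz
    rw [mem_image]
    exact ⟨(x + y).toNat, by rw [mem_Icc]; omega, by simp only; omega⟩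

lemma sum_split (f : ℕ → ℝ) (N : ℕ) : ∑ n ∈ Icc 1 (2 * N), f n = ∑ m ∈ Icc 1 N, (f (2 * m) + f (2 * m - 1)) := by
  induction N with
  | zero => simp
  | succ N ih =>
    rw [show 2 * (N + 1) = 2 * N + 1 + 1 by ring, sum_Icc_succ_top (by omega), sum_Icc_succ_top (by omega), ih,
      sum_Icc_succ_top (by omega)]
    rw [show 2 * (N + 1) - 1 = 2 * N + 1 by omega, show 2 * (N + 1) = 2 * N + 1 + 1 by ring]
    ring

lemma log4 : ∀ᶠ N : ℕ in atTop, Real.log N ^ 4 ≤ N := by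
  have h := (Real.isLittleO_pow_log_id_atTop (n := 4)).bound one_pos
  filter_upwards [tendsto_natCast_atTop_atTop.eventually h] with N h1
  simp only [id_eq, one_mul, Real.norm_eq_abs, Nat.abs_cast] at h1
  exact (le_abs_self _).trans h1

open Classical in
theorem second_moment : ∃ C : ℝ, 0 ≤ C ∧ ∀ᶠ N : ℕ in atTop,
    (∑ n ∈ Icc 1 (2 * N), (g n : ℝ) ^ 2) * Real.log N ^ 4 ≤ C * N ^ 3 := by
  obtain ⟨N0, hN0⟩ := Pool.Agent.W93.GB.fam 1 2 0 4 le_rfl 1 one_pos
  obtain ⟨C, hC⟩ := Pool.Agent.Erdos456.Mert.totRatio_moment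
  refine ⟨22 + 512 * |C|, by positivity, ?_⟩
  filter_upwards [eventually_ge_atTop (max N0 3), log4] with N hN hl
  have hN3 : 3 ≤ N := (le_max_right _ _).trans hN
  have hNr : (3 : ℝ) ≤ N := by exact_mod_cast hN3
  have hL0 : 0 < Real.log N := Real.log_pos (by linarith)
  have h1 := hN0 N ((le_max_left _ _).trans hN) N (fun m => 2 * m) (by
    intro m hm
    rw [mem_Icc] at hm
    exact ⟨by show 2 * m ≤ 2 * N; omega, ⟨m, rfl⟩⟩) (by
    have he : energy 1 N (fun m => 2 * m) ≤ N := by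
      unfold energy
      have : ((Fintype.piFinset fun _ : Fin 1 => Icc 1 N) ×ˢ (Fintype.piFinset fun _ : Fin 1 => Icc 1 N)).filter
          (fun q => ∑ i, 2 * (q.1 i) = ∑ i, 2 * (q.2 i)) ⊆
          (Icc 1 N).image (fun n => ((fun _ => n, fun _ => n) : (Fin 1 → ℕ) × (Fin 1 → ℕ))) := by
        rintro ⟨u, v⟩ huv
        rw [mem_filter, mem_product] at huv
        simp only [Fintype.mem_piFinset, Finset.univ_unique, Fin.default_eq_zero, sum_singleton] at huv
        rw [mem_image]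
        refine ⟨u 0, huv.1.1 0, ?_⟩
        rw [Prod.mk.injEq]
        constructor
        · ext i; rw [Subsingleton.elim i 0]
        · ext i; rw [Subsingleton.elim i 0]; omega
      refine (card_le_card this).trans (card_image_le.trans ?_)
      rw [Nat.card_Icc]; omega
    rw [pow_zero, one_mul]
    have : (energy 1 N (fun m => 2 * m) : ℝ) ≤ N := by exact_mod_cast he
    calc (energy 1 N (fun m => 2 * m) : ℝ) * N ≤ N * N := mul_le_mul_of_nonneg_right this (by positivity)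
      _ = (N : ℝ) ^ (2 * 1) := by ring)
    ((Icc 1 N).filter (fun m => ¬ Pool.Agent.W93.GB.Good 1 (2 * m))) (filter_subset _ _) (by
    intro m hm
    exact (mem_filter.1 hm).2)
  set S := (Icc 1 N).filter (fun m => ¬ Pool.Agent.W93.GB.Good 1 (2 * m)) with hS
  have hterm : ∀ m ∈ Icc 1 N, ((g (2 * m) : ℝ) ^ 2 + (g (2 * m - 1) : ℝ) ^ 2) ≤
      (if m ∈ S then 9 * (N : ℝ) ^ 2 else 0) + (9 * N + 4) +
        256 * N ^ 2 / Real.log N ^ 4 * (((2 * m : ℕ) : ℝ) / (Nat.totient (2 * m) : ℝ)) ^ 6 := by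
    intro m hm
    rw [mem_Icc] at hm
    have hodd : (g (2 * m - 1) : ℝ) ^ 2 ≤ 4 := by
      have : (g (2 * m - 1) : ℝ) ≤ 2 := by exact_mod_cast g_odd (2 * m - 1) (by omega)
      have h0 : (0 : ℝ) ≤ g (2 * m - 1) := Nat.cast_nonneg _
      nlinarith
    have hlast : 0 ≤ 256 * (N : ℝ) ^ 2 / Real.log N ^ 4 * (((2 * m : ℕ) : ℝ) / (Nat.totient (2 * m) : ℝ)) ^ 6 := by
      positivity
    have hmN : (m : ℝ) ≤ N := by exact_mod_cast hm.2
    have hm1 : (1 : ℝ) ≤ m := by exact_mod_cast hm.1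
    have hg1 : (g (2 * m) : ℝ) ≤ 2 * m + 1 := by exact_mod_cast g_le (2 * m)
    have hg0 : (0 : ℝ) ≤ g (2 * m) := Nat.cast_nonneg _
    by_cases hmS : m ∈ S
    · rw [if_pos hmS]
      have : (g (2 * m) : ℝ) ≤ 3 * N := by linarith
      have : (g (2 * m) : ℝ) ^ 2 ≤ 9 * N ^ 2 := by nlinarith
      have : (0 : ℝ) ≤ 9 * N := by positivity
      linarith
    · rw [if_neg hmS]
      have hgood : Pool.Agent.W93.GB.Good 1 (2 * m) := by
        by_contra hcon
        exact hmS (by rw [hS, mem_filter, mem_Icc]; exact ⟨hm, hcon⟩)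
      by_cases hsm : (2 * m) ^ 2 ≤ N
      · have h2 : ((2 * m : ℝ)) ^ 2 ≤ N := by exact_mod_cast hsm
        have : (g (2 * m) : ℝ) ^ 2 ≤ 9 * N := by
          have h3 : (g (2 * m) : ℝ) ≤ 3 * m := by linarith
          nlinarith
        linarith
      · have h2 : (N : ℝ) ≤ (2 * m : ℝ) ^ 2 := by
          have : N ≤ (2 * m) ^ 2 := by omega
          exact_mod_cast this
        have h3 : Real.log N ≤ 2 * Real.log (2 * m : ℝ) := by
          have := Real.log_le_log (by positivity) h2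
          rw [Real.log_pow] at this
          exact_mod_cast this
        obtain ⟨h4, _⟩ := hgood
        obtain ⟨_, s2⟩ := Pool.Agent.TH935.GF.sing_tot (2 * m) (by omega) ⟨m, rfl⟩
        set t : ℝ := ((2 * m : ℕ) : ℝ) / (Nat.totient (2 * m) : ℝ) with ht
        have htot : (0 : ℝ) < (Nat.totient (2 * m) : ℝ) := by exact_mod_cast Nat.totient_pos.2 (by omega)
        have ht1 : 1 ≤ t := by
          rw [ht, one_le_div htot]
          exact_mod_cast Nat.totient_le (2 * m)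
        have h5 : (g (2 * m) : ℝ) ≤ 2 * HL (2 * m) := by
          rw [abs_le] at h4
          linarith [h4.2]
        have h6 : HL (2 * m) ≤ t * (8 * N / Real.log N ^ 2) := by
          unfold HL
          have h7 : (((2 * m : ℕ) : ℝ)) / Real.log ((2 * m : ℕ) : ℝ) ^ 2 ≤ 8 * N / Real.log N ^ 2 := by
            push_cast
            have h8 : 0 < Real.log (2 * m : ℝ) := by linarith
            rw [div_le_div_iff₀ (by positivity) (by positivity)]
            have h9 : Real.log N ^ 2 ≤ 4 * Real.log (2 * m : ℝ) ^ 2 := by nlinarith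
            calc (2 * m : ℝ) * Real.log N ^ 2 ≤ (2 * N) * (4 * Real.log (2 * m : ℝ) ^ 2) :=
                  mul_le_mul (by linarith) h9 (by positivity) (by positivity)
              _ = 8 * N * Real.log (2 * m : ℝ) ^ 2 := by ring
          have h10 : 0 ≤ (((2 * m : ℕ) : ℝ)) / Real.log ((2 * m : ℕ) : ℝ) ^ 2 := by positivity
          calc sing (2 * m) * ((((2 * m : ℕ) : ℝ)) / Real.log ((2 * m : ℕ) : ℝ) ^ 2)
              ≤ t * ((((2 * m : ℕ) : ℝ)) / Real.log ((2 * m : ℕ) : ℝ) ^ 2) := mul_le_mul_of_nonneg_right s2 h10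
            _ ≤ t * (8 * N / Real.log N ^ 2) := mul_le_mul_of_nonneg_left h7 (by linarith)
        have h7 : (g (2 * m) : ℝ) ≤ 16 * t * (N / Real.log N ^ 2) := by
          have : t * (8 * N / Real.log N ^ 2) = 8 * t * (N / Real.log N ^ 2) := by ring
          rw [this] at h6
          linarith
        have h8 : (g (2 * m) : ℝ) ^ 2 ≤ (16 * t * (N / Real.log N ^ 2)) ^ 2 := pow_le_pow_left₀ hg0 h7 2
        have h9 : (16 * t * (N / Real.log N ^ 2)) ^ 2 = 256 * N ^ 2 / Real.log N ^ 4 * t ^ 2 := by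
          field_simp
          ring
        have h10 : t ^ 2 ≤ t ^ 6 := pow_le_pow_right₀ ht1 (by norm_num)
        have h11 : 256 * (N : ℝ) ^ 2 / Real.log N ^ 4 * t ^ 2 ≤ 256 * N ^ 2 / Real.log N ^ 4 * t ^ 6 :=
          mul_le_mul_of_nonneg_left h10 (by positivity)
        have : (0 : ℝ) ≤ 9 * N := by positivity
        linarith
  have hsum : ∑ n ∈ Icc 1 (2 * N), (g n : ℝ) ^ 2 ≤ S.card * (9 * (N : ℝ) ^ 2) + N * (9 * N + 4) +
      256 * N ^ 2 / Real.log N ^ 4 * (|C| * (2 * N)) := by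
    rw [sum_split (fun n => (g n : ℝ) ^ 2)]
    refine (sum_le_sum hterm).trans ?_
    rw [sum_add_distrib, sum_add_distrib, ← mul_sum]
    have e1 : ∑ m ∈ Icc 1 N, (if m ∈ S then 9 * (N : ℝ) ^ 2 else 0) = S.card * (9 * (N : ℝ) ^ 2) := by
      rw [← sum_filter, sum_const, nsmul_eq_mul]
      congr 2
      congr 1
      ext m
      rw [mem_filter]
      exact ⟨fun h => h.2, fun h => ⟨(mem_filter.1 h).1, h⟩⟩
    have e2 : ∑ m ∈ Icc 1 N, (9 * (N : ℝ) + 4) = N * (9 * N + 4) := by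
      rw [sum_const, Nat.card_Icc, nsmul_eq_mul]
      norm_num
    have e3 : ∑ m ∈ Icc 1 N, (((2 * m : ℕ) : ℝ) / (Nat.totient (2 * m) : ℝ)) ^ 6 ≤ |C| * (2 * N) := by
      have h2 := hC (2 * N)
      have h3 := sum_split (fun n => ((n : ℝ) / (Nat.totient n : ℝ)) ^ 6) N
      have h4 : ∑ m ∈ Icc 1 N, (((2 * m : ℕ) : ℝ) / (Nat.totient (2 * m) : ℝ)) ^ 6 ≤
          ∑ m ∈ Icc 1 N, ((((2 * m : ℕ) : ℝ) / (Nat.totient (2 * m) : ℝ)) ^ 6 +
            (((2 * m - 1 : ℕ) : ℝ) / (Nat.totient (2 * m - 1) : ℝ)) ^ 6) := by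
        apply sum_le_sum
        intro m _
        have : 0 ≤ (((2 * m - 1 : ℕ) : ℝ) / (Nat.totient (2 * m - 1) : ℝ)) ^ 6 := by positivity
        linarith
      refine h4.trans ?_
      rw [← h3]
      refine h2.trans ?_
      push_cast
      exact mul_le_mul_of_nonneg_right (le_abs_self C) (by positivity)
    rw [e1, e2]
    have h5 := mul_le_mul_of_nonneg_left e3 (show 0 ≤ 256 * (N : ℝ) ^ 2 / Real.log N ^ 4 by positivity)
    linarith
  have hL4 : 0 < Real.log N ^ 4 := by positivity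
  have f1 : (S.card : ℝ) * Real.log N ^ 4 ≤ N := by
    rw [le_div_iff₀ hL4] at h1
    exact h1
  calc (∑ n ∈ Icc 1 (2 * N), (g n : ℝ) ^ 2) * Real.log N ^ 4
      ≤ (S.card * (9 * (N : ℝ) ^ 2) + N * (9 * N + 4) +
          256 * N ^ 2 / Real.log N ^ 4 * (|C| * (2 * N))) * Real.log N ^ 4 := mul_le_mul_of_nonneg_right hsum hL4.le
    _ = (S.card * Real.log N ^ 4) * (9 * (N : ℝ) ^ 2) + N * (9 * N + 4) * Real.log N ^ 4 + 512 * |C| * N ^ 3 := by
        field_simp
        ring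
    _ ≤ N * (9 * (N : ℝ) ^ 2) + N * (9 * N + 4) * N + 512 * |C| * N ^ 3 := by
        have g1 := mul_le_mul_of_nonneg_right f1 (show 0 ≤ 9 * (N : ℝ) ^ 2 by positivity)
        have g2 := mul_le_mul_of_nonneg_left hl (show 0 ≤ (N : ℝ) * (9 * N + 4) by positivity)
        linarith
    _ ≤ (22 + 512 * |C|) * N ^ 3 := by nlinarith [mul_nonneg (show (0:ℝ) ≤ N by linarith) (show (0:ℝ) ≤ N by linarith), pow_pos (show (0:ℝ) < N by linarith) 3, mul_nonneg (mul_nonneg (show (0:ℝ) ≤ N by linarith) (show (0:ℝ) ≤ N by linarith)) (show (0:ℝ) ≤ N - 1 by linarith)]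

/-- LINEAR FORMS IN TWO PRIMES WITH VALUES IN A GIVEN SET -/
theorem UB {a b : ℤ} (ha : a ≠ 0) (hb : b ≠ 0) : ∃ C : ℝ, 0 ≤ C ∧ ∀ᶠ N : ℕ in atTop, ∀ V : Finset ℤ,
    (((PN N ×ˢ PN N).filter (fun z => a * z.1 + b * z.2 ∈ V)).card : ℝ) ^ 2 * Real.log N ^ 4 ≤ C * V.card * N ^ 3 := by
  obtain ⟨C, hC0, hC⟩ := second_moment
  refine ⟨C, hC0, ?_⟩
  filter_upwards [hC] with N h V
  have h1 := sq_le (PN N ×ˢ PN N) (fun z => a * z.1 + b * z.2) V
  have h2 := (h1.trans (Nat.mul_le_mul_left _ (co_form (PN N) ha hb))).trans (Nat.mul_le_mul_left _ (energy_sum N))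
  have h3 : (((PN N ×ˢ PN N).filter (fun z => a * z.1 + b * z.2 ∈ V)).card : ℝ) ^ 2 ≤
      V.card * ∑ n ∈ Icc 1 (2 * N), (g n : ℝ) ^ 2 := by exact_mod_cast h2
  calc (((PN N ×ˢ PN N).filter (fun z => a * z.1 + b * z.2 ∈ V)).card : ℝ) ^ 2 * Real.log N ^ 4
      ≤ (V.card * ∑ n ∈ Icc 1 (2 * N), (g n : ℝ) ^ 2) * Real.log N ^ 4 := mul_le_mul_of_nonneg_right h3 (by positivity)
    _ = V.card * ((∑ n ∈ Icc 1 (2 * N), (g n : ℝ) ^ 2) * Real.log N ^ 4) := by ring
    _ ≤ V.card * (C * N ^ 3) := mul_le_mul_of_nonneg_left h (Nat.cast_nonneg _)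
    _ = C * V.card * N ^ 3 := by ring

end Pool.Agent.TH465.SX
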